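import Pool.Agent.W_d1cfb0_h29.Bumps

/-!
# The averages: displacement, its primitive A, and Mn

* `Mn`: continuity: `intervalIntegral.continuous_parametric_intervalIntegral_of_continuous` or
  `continuous_of_dominated`; bound: `intervalIntegral.norm_integral_le_of_norm_le_const`.
  `Mn_eq`: substitution `u = x + l v` (`intervalIntegral.integral_comp_mul_add` and the like):
  `∫ v in -1..1, dl (x + l v) = l⁻¹ ∫ u in x-l..x+l, dl u = l⁻¹ (A (x + l) - A (x - l))`.
  `hasDerivAt_Mn` follows by `Mn_eq` and `hasDerivAt_A`.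
* `Mn_off`, `A_off`: for `x ∉ [p - 1/16, q + 1/16]` and `0 ≤ l ≤ 1/16`, `|v| ≤ 1` the point
  `x + l v` is not in `[p, q]`, so the displacement vanishes there.
-/

namespace Pool.Agent.W_d1cfb0_h29

open MeasureTheory Set

variable {b : ℝ → ℝ} {p q del : ℝ}

theorem continuous_dl (hb : Sml b p q del) : Continuous (dl b) := by
  show Continuous fun x => b x - x
  exact hb.cont.sub continuous_id

theorem abs_dl_le (hb : Sml b p q del) (x : ℝ) : |dl b x| ≤ del := by
  exact hb.close x

theorem dl_off (hb : Sml b p q del) {x : ℝ} (hx : x ∉ Icc p q) : dl b x = 0 := by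
  exact sub_eq_zero.2 (hb.off x hx)

theorem hasDerivAt_A (hb : Sml b p q del) (x : ℝ) : HasDerivAt (A b) (dl b x) x := by
  exact ((continuous_dl hb).integral_hasStrictDerivAt 0 x).hasDerivAt

theorem avg_sub (hb : Sml b p q del) (x y : ℝ) : A b y - A b x = ∫ u in x..y, dl b u := by
  unfold A
  exact intervalIntegral.integral_interval_sub_left
    ((continuous_dl hb).intervalIntegrable _ _) ((continuous_dl hb).intervalIntegrable _ _)

theorem avg_notMem {x l u : ℝ} (hx : x ∉ Icc (p - 1 / 16) (q + 1 / 16))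
    (hl' : l ≤ 1 / 16) (hu : |u - x| ≤ l) : u ∉ Icc p q := by
  rintro ⟨h1, h2⟩
  rw [abs_le] at hu
  exact hx ⟨by linarith, by linarith⟩

theorem A_sub_le (hb : Sml b p q del) {x l : ℝ} (hl : 0 ≤ l) :
    |A b (x + l) - A b (x - l)| ≤ 2 * l * del := by
  rw [avg_sub hb]
  have h1 := intervalIntegral.norm_integral_le_of_norm_le_const (f := dl b) (a := x - l)
    (b := x + l) (C := del) fun u _ => by
      rw [Real.norm_eq_abs]
      exact abs_dl_le hb u
  rw [Real.norm_eq_abs] at h1
  have h2 : x + l - (x - l) = 2 * l := by ring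
  rw [h2, abs_of_nonneg (by linarith : (0 : ℝ) ≤ 2 * l)] at h1
  linarith

theorem A_off (hb : Sml b p q del) {x l : ℝ} (hx : x ∉ Icc (p - 1 / 16) (q + 1 / 16))
    (hl : 0 ≤ l) (hl' : l ≤ 1 / 16) : A b (x + l) - A b (x - l) = 0 := by
  rw [avg_sub hb]
  have h1 : ∫ u in (x - l)..(x + l), dl b u = ∫ u in (x - l)..(x + l), (0 : ℝ) := by
    refine intervalIntegral.integral_congr fun u hu => ?_
    rw [uIcc_of_le (by linarith)] at hu
    refine dl_off hb (avg_notMem hx hl' ?_)
    rw [abs_le]
    exact ⟨by linarith [hu.1], by linarith [hu.2]⟩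
  rw [h1, intervalIntegral.integral_zero]

theorem continuous_Mn (hb : Sml b p q del) : Continuous fun z : ℝ × ℝ => Mn b z.1 z.2 := by
  unfold Mn
  refine continuous_const.mul ?_
  refine intervalIntegral.continuous_parametric_intervalIntegral_of_continuous' ?_ _ _
  exact (continuous_dl hb).comp (by fun_prop)

theorem Mn_zero (b : ℝ → ℝ) (x : ℝ) : Mn b x 0 = dl b x := by
  unfold Mn
  simp only [zero_mul, add_zero, intervalIntegral.integral_const, smul_eq_mul]
  ring

theorem abs_Mn_le (hb : Sml b p q del) (x l : ℝ) : |Mn b x l| ≤ del := by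
  unfold Mn
  have h1 := intervalIntegral.norm_integral_le_of_norm_le_const (f := fun v => dl b (x + l * v))
    (a := -1) (b := 1) (C := del) fun u _ => by
      rw [Real.norm_eq_abs]
      exact abs_dl_le hb _
  rw [Real.norm_eq_abs] at h1
  have h2 : |(1 : ℝ) - -1| = 2 := by norm_num
  rw [h2] at h1
  rw [abs_mul, abs_of_pos (by norm_num : (0 : ℝ) < 1 / 2)]
  linarith

theorem Mn_eq (hb : Sml b p q del) {l : ℝ} (hl : l ≠ 0) (x : ℝ) :
    Mn b x l = (A b (x + l) - A b (x - l)) / (2 * l) := by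
  unfold Mn
  rw [intervalIntegral.integral_comp_add_mul (fun u => dl b u) hl x, avg_sub hb, smul_eq_mul]
  have h1 : x + l * -1 = x - l := by ring
  rw [h1, mul_one]
  field_simp

theorem hasDerivAt_Mn (hb : Sml b p q del) {l : ℝ} (hl : l ≠ 0) (x : ℝ) :
    HasDerivAt (fun x => Mn b x l) ((dl b (x + l) - dl b (x - l)) / (2 * l)) x := by
  have h1 : (fun x => Mn b x l) = fun x => (A b (x + l) - A b (x - l)) / (2 * l) :=
    funext fun x => Mn_eq hb hl x
  rw [h1]
  have h2 : HasDerivAt (fun x => A b (x + l)) (dl b (x + l)) x := by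
    have := (hasDerivAt_A hb (x + l)).comp x ((hasDerivAt_id x).add_const l)
    rw [mul_one] at this
    exact this
  have h3 : HasDerivAt (fun x => A b (x - l)) (dl b (x - l)) x := by
    have := (hasDerivAt_A hb (x - l)).comp x ((hasDerivAt_id x).sub_const l)
    rw [mul_one] at this
    exact this
  exact (h2.sub h3).div_const _

theorem Mn_off (hb : Sml b p q del) {x l : ℝ} (hx : x ∉ Icc (p - 1 / 16) (q + 1 / 16))
    (hl : 0 ≤ l) (hl' : l ≤ 1 / 16) : Mn b x l = 0 := by
  unfold Mn
  have h1 : ∫ v in (-1 : ℝ)..1, dl b (x + l * v) = ∫ v in (-1 : ℝ)..1, (0 : ℝ) := by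
    refine intervalIntegral.integral_congr fun v hv => ?_
    rw [uIcc_of_le (by norm_num)] at hv
    refine dl_off hb (avg_notMem hx hl' ?_)
    rw [add_sub_cancel_left, abs_mul, abs_of_nonneg hl]
    have h2 : |v| ≤ 1 := abs_le.2 hv
    calc l * |v| ≤ l * 1 := mul_le_mul_of_nonneg_left h2 hl
      _ = l := mul_one l
  rw [h1, intervalIntegral.integral_zero, mul_zero]

end Pool.Agent.W_d1cfb0_h29
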