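import Pool.Agent.W_d1cfb0_h29.Avg

/-!
# The functions G, k, K

* `Mn_off`, `A_off`: for `x ∉ [p - 1/16, q + 1/16]` and `0 ≤ l ≤ 1/16`, `|v| ≤ 1` the point
  `x + l v` is not in `[p, q]`, so the displacement vanishes there.
* `G`: the integrand is jointly continuous in `(x, l)`, so `(x, r) ↦ ∫_0^r` is continuous
  (`intervalIntegral.continuous_parametric_primitive_of_continuous` or similar), the `r`-derivative
  is the fundamental theorem; for `r ≥ 1/16` the integrand vanishes on `[1/16, r]`.
* `K`: derivative under the integral sign: the integrand `eta l * (A (x + l) - A (x - l))` has the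
  continuous `x`-derivative `eta l * (dl (x + l) - dl (x - l))` (bounded by `2 del`)
  (`intervalIntegral.hasDerivAt_integral_of_dominated_loc_of_deriv_le`).
  Bound: `|A (x + l) - A (x - l)| ≤ 2 l del ≤ del / 8`.
-/

namespace Pool.Agent.W_d1cfb0_h29

open MeasureTheory Set

variable {b : ℝ → ℝ} {p q del : ℝ}

theorem avgg_cont (hb : Sml b p q del) :
    Continuous (Function.uncurry fun x l : ℝ => eta l * (dl b (x + l) - dl b (x - l))) := by
  have h1 := continuous_dl hb
  have h2 := continuous_eta
  exact (h2.comp continuous_snd).mul ((h1.comp (continuous_fst.add continuous_snd)).sub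
    (h1.comp (continuous_fst.sub continuous_snd)))

theorem avgg_cont' (hb : Sml b p q del) (x : ℝ) :
    Continuous fun l : ℝ => eta l * (dl b (x + l) - dl b (x - l)) :=
  (avgg_cont hb).comp (by fun_prop : Continuous fun l : ℝ => (x, l))

theorem avgg_bound (hb : Sml b p q del) (x : ℝ) {l : ℝ} (hl : 0 ≤ l) :
    |eta l * (dl b (x + l) - dl b (x - l))| ≤ 2 * del := by
  have h1 := abs_dl_le hb (x + l)
  have h2 := abs_dl_le hb (x - l)
  have h3 : |dl b (x + l) - dl b (x - l)| ≤ 2 * del := by
    rw [abs_le] at h1 h2 ⊢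
    constructor <;> linarith [h1.1, h1.2, h2.1, h2.2]
  rw [abs_mul, abs_of_nonneg (eta_nonneg l)]
  calc eta l * |dl b (x + l) - dl b (x - l)| ≤ 1 * |dl b (x + l) - dl b (x - l)| :=
        mul_le_mul_of_nonneg_right (eta_le_one hl) (abs_nonneg _)
    _ ≤ 2 * del := by rw [one_mul]; exact h3

theorem continuous_G (hb : Sml b p q del) : Continuous fun z : ℝ × ℝ => G b z.1 z.2 :=
  intervalIntegral.continuous_parametric_primitive_of_continuous (avgg_cont hb)

theorem hasDerivAt_G (hb : Sml b p q del) (x r : ℝ) :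
    HasDerivAt (fun r => G b x r) (eta r * (dl b (x + r) - dl b (x - r))) r :=
  intervalIntegral.integral_hasDerivAt_right ((avgg_cont' hb x).intervalIntegrable _ _)
    ((avgg_cont' hb x).stronglyMeasurableAtFilter _ _) (avgg_cont' hb x).continuousAt

theorem G_zero (b : ℝ → ℝ) (x : ℝ) : G b x 0 = 0 := by
  unfold G
  exact intervalIntegral.integral_same

theorem G_eq_k (hb : Sml b p q del) {r : ℝ} (hr : 1 / 16 ≤ r) (x : ℝ) : G b x r = k b x := by
  unfold k G
  rw [← intervalIntegral.integral_add_adjacent_intervals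
    ((avgg_cont' hb x).intervalIntegrable 0 (1 / 16))
    ((avgg_cont' hb x).intervalIntegrable (1 / 16) r)]
  have h1 : ∫ l in (1 / 16 : ℝ)..r, eta l * (dl b (x + l) - dl b (x - l)) =
      ∫ _ in (1 / 16 : ℝ)..r, (0 : ℝ) := by
    refine intervalIntegral.integral_congr fun l hl => ?_
    rw [uIcc_of_le hr] at hl
    beta_reduce
    rw [eta_eq_zero hl.1, zero_mul]
  rw [h1, intervalIntegral.integral_zero, add_zero]

theorem avgg_le (hb : Sml b p q del) {r : ℝ} (hr : 0 ≤ r) (hr' : r ≤ 1 / 16) (x : ℝ) :
    |G b x r| ≤ del / 8 := by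
  have h1 : ‖∫ l in (0 : ℝ)..r, eta l * (dl b (x + l) - dl b (x - l))‖ ≤
      2 * del * |r - 0| := by
    refine intervalIntegral.norm_integral_le_of_norm_le_const fun l hl => ?_
    rw [uIoc_of_le hr] at hl
    rw [Real.norm_eq_abs]
    exact avgg_bound hb x hl.1.le
  rw [Real.norm_eq_abs, sub_zero, abs_of_nonneg hr] at h1
  have h2 := hb.pos
  unfold G
  nlinarith

theorem abs_G_le (hb : Sml b p q del) {r : ℝ} (hr : 0 ≤ r) (x : ℝ) :
    |G b x r| ≤ del / 8 := by
  rcases le_total r (1 / 16) with h | h
  · exact avgg_le hb hr h x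
  · rw [G_eq_k hb h]
    exact avgg_le hb (by norm_num) le_rfl x

theorem G_off (hb : Sml b p q del) {x r : ℝ} (hx : x ∉ Icc (p - 1 / 16) (q + 1 / 16))
    (hr : 0 ≤ r) : G b x r = 0 := by
  unfold G
  have h1 : ∫ l in (0 : ℝ)..r, eta l * (dl b (x + l) - dl b (x - l)) =
      ∫ _ in (0 : ℝ)..r, (0 : ℝ) := by
    refine intervalIntegral.integral_congr fun l hl => ?_
    rw [uIcc_of_le hr] at hl
    beta_reduce
    rcases le_total l (1 / 16) with h | h
    · have h2 : x + l ∉ Icc p q := by
        intro h3
        apply hx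
        constructor <;> linarith [h3.1, h3.2, hl.1]
      have h3 : x - l ∉ Icc p q := by
        intro h3
        apply hx
        constructor <;> linarith [h3.1, h3.2, hl.1]
      rw [dl_off hb h2, dl_off hb h3, sub_zero, mul_zero]
    · rw [eta_eq_zero h, zero_mul]
  rw [h1, intervalIntegral.integral_zero]

theorem continuous_k (hb : Sml b p q del) : Continuous (k b) :=
  (continuous_G hb).comp (by fun_prop : Continuous fun x : ℝ => (x, (1 / 16 : ℝ)))

theorem abs_k_le (hb : Sml b p q del) (x : ℝ) : |k b x| ≤ del / 8 :=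
  abs_G_le hb (by norm_num) x

theorem k_off (hb : Sml b p q del) {x : ℝ} (hx : x ∉ Icc (p - 1 / 16) (q + 1 / 16)) :
    k b x = 0 :=
  G_off hb hx (by norm_num)

theorem hasDerivAt_K (hb : Sml b p q del) (x : ℝ) : HasDerivAt (K b) (k b x) x := by
  have hA : Continuous (A b) := by
    rw [continuous_iff_continuousAt]
    exact fun y => (hasDerivAt_A hb y).continuousAt
  have hF : ∀ y : ℝ, Continuous fun l : ℝ => eta l * (A b (y + l) - A b (y - l)) := fun y =>
    continuous_eta.mul ((hA.comp (continuous_const.add continuous_id)).sub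
      (hA.comp (continuous_const.sub continuous_id)))
  have h := intervalIntegral.hasDerivAt_integral_of_dominated_loc_of_deriv_le (μ := volume)
    (F := fun y l : ℝ => eta l * (A b (y + l) - A b (y - l)))
    (F' := fun y l : ℝ => eta l * (dl b (y + l) - dl b (y - l)))
    (a := 0) (b := 1 / 16) (x₀ := x) (s := univ) (bound := fun _ => 2 * del)
    Filter.univ_mem
    (Filter.Eventually.of_forall fun y => (hF y).aestronglyMeasurable)
    ((hF x).intervalIntegrable _ _) (avgg_cont' hb x).aestronglyMeasurable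
    (Filter.Eventually.of_forall fun l hl y _ => ?_) intervalIntegrable_const
    (Filter.Eventually.of_forall fun l hl y _ => ?_)
  · exact h.2
  · rw [uIoc_of_le (by norm_num)] at hl
    rw [Real.norm_eq_abs]
    exact avgg_bound hb y hl.1.le
  · have h1 : HasDerivAt (fun y => A b (y + l)) (dl b (y + l)) y := by
      have := (hasDerivAt_A hb (y + l)).comp_add_const y l
      exact this
    have h2 : HasDerivAt (fun y => A b (y - l)) (dl b (y - l)) y := by
      have := (hasDerivAt_A hb (y - l)).comp_sub_const y l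
      exact this
    exact (h1.sub h2).const_mul (eta l)

theorem continuous_K (hb : Sml b p q del) : Continuous (K b) := by
  rw [continuous_iff_continuousAt]
  exact fun y => (hasDerivAt_K hb y).continuousAt

theorem abs_K_le (hb : Sml b p q del) (x : ℝ) : |K b x| ≤ del / 128 := by
  have h1 : ‖∫ l in (0 : ℝ)..(1 / 16), eta l * (A b (x + l) - A b (x - l))‖ ≤
      del / 8 * |1 / 16 - 0| := by
    refine intervalIntegral.norm_integral_le_of_norm_le_const fun l hl => ?_
    rw [uIoc_of_le (by norm_num)] at hl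
    rw [Real.norm_eq_abs, abs_mul, abs_of_nonneg (eta_nonneg l)]
    have h2 := A_sub_le hb (x := x) hl.1.le
    have h3 := hb.pos
    calc eta l * |A b (x + l) - A b (x - l)| ≤ 1 * |A b (x + l) - A b (x - l)| :=
          mul_le_mul_of_nonneg_right (eta_le_one hl.1.le) (abs_nonneg _)
      _ ≤ del / 8 := by
        rw [one_mul]
        nlinarith [hl.2]
  rw [Real.norm_eq_abs, sub_zero, abs_of_nonneg (by norm_num : (0 : ℝ) ≤ 1 / 16)] at h1
  unfold K
  linarith

theorem K_off (hb : Sml b p q del) {x : ℝ} (hx : x ∉ Icc (p - 1 / 16) (q + 1 / 16)) :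
    K b x = 0 := by
  unfold K
  have h1 : ∫ l in (0 : ℝ)..(1 / 16), eta l * (A b (x + l) - A b (x - l)) =
      ∫ _ in (0 : ℝ)..(1 / 16), (0 : ℝ) := by
    refine intervalIntegral.integral_congr fun l hl => ?_
    rw [uIcc_of_le (by norm_num)] at hl
    beta_reduce
    rw [A_off hb hx hl.1 hl.2, mul_zero]
  rw [h1, intervalIntegral.integral_zero]

end Pool.Agent.W_d1cfb0_h29
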