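import Pool.Agent.W_d1cfb0_h29.Defs

/-!
# The cut-off functions

All elementary. `N` : `intervalIntegral.integral_hasDerivAt_right` (`zeta` is continuous);
`N t = 0` for `t ≤ 1/128` since the integrand vanishes between `0` and `t`; the value for
`t ≥ 3/128`: the integral over `[0, t]` is the integral over `[1/128, 3/128]` of
`128 - 128² |u - 1/64|`, which is `1` (split at `1/64`: on `[1/128, 1/64]` the integrand is
`128 - 128² (1/64 - u) = 128² u - 128`, on `[1/64, 3/128]` it is `384 - 128² u`; e.g. use
`intervalIntegral.integral_eq_sub_of_hasDerivAt` on each piece). `0 ≤ N t` by positivity and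
`N t ≤ N (max t (3/128)) = 1` by monotonicity.
-/

namespace Pool.Agent.W_d1cfb0_h29

open MeasureTheory Set

theorem continuous_eta : Continuous eta := by
  unfold eta
  fun_prop

theorem eta_nonneg (l : ℝ) : 0 ≤ eta l := by
  exact le_max_left _ _

theorem eta_le_one {l : ℝ} (h : 0 ≤ l) : eta l ≤ 1 := by
  exact max_le zero_le_one (by linarith)

theorem eta_lt_one {l : ℝ} (h : 0 < l) : eta l < 1 := by
  exact max_lt zero_lt_one (by linarith)

theorem eta_zero : eta 0 = 1 := by
  unfold eta
  norm_num

theorem eta_eq_zero {l : ℝ} (h : 1 / 16 ≤ l) : eta l = 0 := by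
  exact max_eq_left (by linarith)

theorem continuous_zeta : Continuous zeta := by
  unfold zeta
  fun_prop

theorem zeta_nonneg (t : ℝ) : 0 ≤ zeta t := by
  exact le_max_left _ _

theorem zeta_le (t : ℝ) : zeta t ≤ 128 := by
  refine max_le (by norm_num) ?_
  have := abs_nonneg (t - 1 / 64)
  linarith

theorem zeta_eq_zero {t : ℝ} (h : t ≤ 1 / 128) : zeta t = 0 := by
  refine max_eq_left ?_
  rw [abs_of_nonpos (by linarith)]
  linarith

theorem zeta_eq_zero' {t : ℝ} (h : 3 / 128 ≤ t) : zeta t = 0 := by
  refine max_eq_left ?_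
  rw [abs_of_nonneg (by linarith)]
  linarith

/-- The supports are disjoint: if `1/128 < t` then `1/16 ≤ √t`. -/
theorem eta_or_zeta (t : ℝ) : eta √t = 0 ∨ zeta t = 0 := by
  rcases le_or_gt t (1 / 128) with h | h
  · exact Or.inr (zeta_eq_zero h)
  · left
    refine eta_eq_zero ?_
    refine Real.le_sqrt_of_sq_le ?_
    linarith

theorem eta_sqrt_eq_zero {t : ℝ} (h : 3 / 128 ≤ t) : eta √t = 0 := by
  refine eta_eq_zero ?_
  refine Real.le_sqrt_of_sq_le ?_
  linarith

theorem hasDerivAt_N (t : ℝ) : HasDerivAt N (zeta t) t := by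
  unfold N
  exact intervalIntegral.integral_hasDerivAt_right (continuous_zeta.intervalIntegrable _ _)
    (continuous_zeta.stronglyMeasurableAtFilter _ _) continuous_zeta.continuousAt

theorem continuous_N : Continuous N := by
  exact continuous_iff_continuousAt.2 fun t => (hasDerivAt_N t).continuousAt

theorem N_zero : N 0 = 0 := by
  unfold N
  exact intervalIntegral.integral_same

theorem N_eq_zero {t : ℝ} (h : t ≤ 1 / 128) : N t = 0 := by
  unfold N
  have h1 : ∫ u in (0 : ℝ)..t, zeta u = ∫ _u in (0 : ℝ)..t, (0 : ℝ) := by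
    refine intervalIntegral.integral_congr fun u hu => ?_
    refine zeta_eq_zero ?_
    rcases hu with ⟨_, hu2⟩
    exact hu2.trans (max_le (by norm_num) h)
  rw [h1]
  simp

theorem N_eq_one {t : ℝ} (h : 3 / 128 ≤ t) : N t = 1 := by
  have hi : ∀ a b : ℝ, IntervalIntegrable zeta volume a b := fun a b =>
    continuous_zeta.intervalIntegrable a b
  have h1 : N t = (∫ u in (0 : ℝ)..(1 / 128), zeta u) + (∫ u in (1 / 128 : ℝ)..(1 / 64), zeta u) +
      (∫ u in (1 / 64 : ℝ)..(3 / 128), zeta u) + ∫ u in (3 / 128 : ℝ)..t, zeta u := by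
    unfold N
    rw [intervalIntegral.integral_add_adjacent_intervals (hi _ _) (hi _ _),
      intervalIntegral.integral_add_adjacent_intervals (hi _ _) (hi _ _),
      intervalIntegral.integral_add_adjacent_intervals (hi _ _) (hi _ _)]
  have h2 : ∫ u in (0 : ℝ)..(1 / 128), zeta u = 0 := N_eq_zero le_rfl
  have h3 : ∫ u in (1 / 128 : ℝ)..(1 / 64), zeta u = 1 / 2 := by
    have h : ∫ u in (1 / 128 : ℝ)..(1 / 64), zeta u =
        ∫ u in (1 / 128 : ℝ)..(1 / 64), (128 ^ 2 * u - 128) := by
      refine intervalIntegral.integral_congr fun u hu => ?_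
      rw [uIcc_of_le (by norm_num)] at hu
      obtain ⟨hu1, hu2⟩ := hu
      show max 0 (128 - 128 ^ 2 * |u - 1 / 64|) = 128 ^ 2 * u - 128
      rw [abs_of_nonpos (by linarith), max_eq_right (by linarith)]
      ring
    rw [h, intervalIntegral.integral_sub (Continuous.intervalIntegrable (by fun_prop) _ _)
      (Continuous.intervalIntegrable (by fun_prop) _ _), intervalIntegral.integral_const_mul,
      integral_id, intervalIntegral.integral_const]
    norm_num
  have h4 : ∫ u in (1 / 64 : ℝ)..(3 / 128), zeta u = 1 / 2 := by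
    have h : ∫ u in (1 / 64 : ℝ)..(3 / 128), zeta u =
        ∫ u in (1 / 64 : ℝ)..(3 / 128), (384 - 128 ^ 2 * u) := by
      refine intervalIntegral.integral_congr fun u hu => ?_
      rw [uIcc_of_le (by norm_num)] at hu
      obtain ⟨hu1, hu2⟩ := hu
      show max 0 (128 - 128 ^ 2 * |u - 1 / 64|) = 384 - 128 ^ 2 * u
      rw [abs_of_nonneg (by linarith), max_eq_right (by linarith)]
      ring
    rw [h, intervalIntegral.integral_sub (Continuous.intervalIntegrable (by fun_prop) _ _)
      (Continuous.intervalIntegrable (by fun_prop) _ _), intervalIntegral.integral_const_mul,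
      integral_id, intervalIntegral.integral_const]
    norm_num
  have h5 : ∫ u in (3 / 128 : ℝ)..t, zeta u = 0 := by
    have h' : ∫ u in (3 / 128 : ℝ)..t, zeta u = ∫ _u in (3 / 128 : ℝ)..t, (0 : ℝ) := by
      refine intervalIntegral.integral_congr fun u hu => ?_
      rw [uIcc_of_le h] at hu
      exact zeta_eq_zero' hu.1
    rw [h']
    simp
  rw [h1, h2, h3, h4, h5]
  norm_num

theorem N_nonneg {t : ℝ} (h : 0 ≤ t) : 0 ≤ N t := by
  unfold N
  exact intervalIntegral.integral_nonneg h fun u _ => zeta_nonneg u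

theorem N_le_one (t : ℝ) : N t ≤ 1 := by
  have hmono : Monotone N := by
    refine monotone_of_deriv_nonneg (fun t => (hasDerivAt_N t).differentiableAt) fun t => ?_
    rw [(hasDerivAt_N t).deriv]
    exact zeta_nonneg t
  exact (hmono (le_max_left t (3 / 128))).trans (N_eq_one (le_max_right t (3 / 128))).le

end Pool.Agent.W_d1cfb0_h29
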