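import Pool.Agent.W_d1cfb0_h29.ChartMap
import Pool.Agent.W_d1cfb0_h45.Defs

/-!
# Extension of small lifts supported in an arc

`PExt b ε`: `b` has a measure preserving extension to the square moving points by at most `ε`.

* `pext_one`, `pext_mul`: the identity; composition.
* `chart_lift`: let `b₀ x = 4 * b (x / 4)` for `x ∈ [-3/4, 7/4]` and `b₀ x = x` otherwise. As
  `b (7/16) = 7/16` and `b (-3/16) = b (13/16) - 1 = -3/16`, the map `b₀` is continuous, strictly
  increasing and maps `[-3/4, 7/4]` to itself; `|b₀ x - x| ≤ 4 δ`. So `Sml b₀ (-3/4) (7/4) (4 δ)`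
  (if `δ < 1/64`), take `h` from `exists_chart`; `48 * 4 = 192`. For arbitrary `t` put
  `n = ⌊t + 1/4⌋`, `t' = t - n ∈ [-1/4, 3/4)`; `bp t = bp t'`, `bp (b t) = bp (b t' + n) = bp (b t')`
  (`Lf.add_int`, `bp_add_int`). If `t' ∈ [-3/16, 7/16]`: `h (bp t') = bp (b₀ (4 t') / 4) = bp (b t')`.
  If `t' ∈ [-1/4, -3/16)` then `b t' = t'` (since `t' + 1 ∈ [7/16, 13/16]`), if
  `t' ∈ (7/16, 3/4)` then `b t' = t'`; in both cases `h (bp t') = bp t'`.
* `chart_lift'`: conjugate with the rotation `R z = (1 - z.1, 1 - z.2)` (measure preserving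
  homeomorphism, an isometry, preserves `psq`, `R (bp t) = bp (t + 1/2)` by `bp_half`, `R ∘ R = id`)
  and `b' x = b (x - 1/2) + 1/2`, i.e. `b' = tr (1/2) * b * (tr (1/2))⁻¹`: it is the identity on
  `[7/16, 13/16]`; `h' ` from `chart_lift` for `b'`; `h = R ∘ h' ∘ R`:
  `h (bp t) = R (h' (bp (t + 1/2))) = R (bp (b' (t + 1/2))) = R (bp (b t + 1/2)) = bp (b t + 1) = bp (b t)`.
-/

namespace Pool.Agent.W_d1cfb0_h29

open MeasureTheory Set Pool.Agent.W_d1cfb0_h45

/-- `b` has a measure preserving extension to the square moving points by at most `ε`. -/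
def PExt (b : ℝ ≃o ℝ) (ε : ℝ) : Prop :=
  ∃ h : (ℝ × ℝ) ≃ₜ (ℝ × ℝ), MeasurePreserving h (volume : Measure (ℝ × ℝ)) volume ∧
    (∀ z, h z ∈ psq ↔ z ∈ psq) ∧ (∀ t, h (bp t) = bp (b t)) ∧ ∀ z, dist (h z) z ≤ ε

theorem pext_mul {a b : ℝ ≃o ℝ} {ε ε' : ℝ} (ha : PExt a ε) (hb : PExt b ε') :
    PExt (a * b) (ε + ε') := by
  obtain ⟨g, g1, g2, g3, g4⟩ := ha
  obtain ⟨h, h1, h2, h3, h4⟩ := hb
  refine ⟨h.trans g, g1.comp h1, fun z => ?_, fun t => ?_, fun z => ?_⟩
  · rw [Homeomorph.trans_apply, g2, h2]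
  · rw [Homeomorph.trans_apply, h3, g3, mul_app]
  · rw [Homeomorph.trans_apply]
    exact (dist_triangle _ (h z) _).trans (add_le_add (g4 _) (h4 _))

/-- the map in the chart -/
noncomputable def chartlift_b (b : ℝ ≃o ℝ) (x : ℝ) : ℝ :=
  if x ≤ -3 / 4 then x else if x ≤ 7 / 4 then 4 * b (x / 4) else x

theorem chartlift_lo {b : ℝ ≃o ℝ} (hb : Lf b)
    (hs : ∀ x ∈ Icc (7 / 16 : ℝ) (13 / 16), b x = x) : b (-3 / 16) = -3 / 16 := by
  have h1 := hb (-3 / 16)
  have h2 := hs (13 / 16) ⟨by norm_num, by norm_num⟩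
  have h3 : (-3 / 16 : ℝ) + 1 = 13 / 16 := by norm_num
  rw [h3, h2] at h1
  linarith

theorem chartlift_sml {b : ℝ ≃o ℝ} (hb : Lf b) {δ : ℝ} (h0 : 0 < δ) (h1 : δ < 1 / 64)
    (hd : ∀ x, |b x - x| ≤ δ) (hs : ∀ x ∈ Icc (7 / 16 : ℝ) (13 / 16), b x = x) :
    Sml (chartlift_b b) (-3 / 4) (7 / 4) (4 * δ) := by
  have hlo := chartlift_lo hb hs
  have hhi : b (7 / 16) = 7 / 16 := hs _ ⟨by norm_num, by norm_num⟩
  have hlo' : 4 * b (-3 / 4 / 4) = -3 / 4 := by
    rw [show (-3 / 4 / 4 : ℝ) = -3 / 16 by norm_num, hlo]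
    norm_num
  have hhi' : 4 * b (7 / 4 / 4) = 7 / 4 := by
    rw [show (7 / 4 / 4 : ℝ) = 7 / 16 by norm_num, hhi]
    norm_num
  have hlt : ∀ x y : ℝ, x < y → 4 * b (x / 4) < 4 * b (y / 4) := by
    intro x y h
    have h2 : x / 4 < y / 4 := by linarith
    have h3 := b.lt_iff_lt.2 h2
    linarith
  refine ⟨?_, ?_, ?_, ?_, by linarith, by linarith⟩
  · unfold chartlift_b
    refine Continuous.if_le continuous_id ?_ continuous_id continuous_const ?_
    · refine Continuous.if_le ?_ continuous_id continuous_id continuous_const ?_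
      · exact continuous_const.mul (b.continuous.comp (continuous_id.div_const 4))
      · intro x hx
        change x = 7 / 4 at hx
        rw [hx, hhi']
    · intro x hx
      change x = -3 / 4 at hx
      rw [hx, if_pos (by norm_num), hlo']
  · intro x y hxy
    have e := hlt x y hxy
    unfold chartlift_b
    split_ifs with a1 a2 a3 a4 a5 a6 <;> try linarith
    · have := hlt (-3 / 4) y (by linarith)
      linarith
    · have := hlt x (7 / 4)
      rcases a4.lt_or_eq with a7 | a7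
      · have := hlt x (7 / 4) a7
        linarith
      · rw [a7, hhi']
        linarith
  · intro x
    unfold chartlift_b
    have h2 : 4 * b (x / 4) - x = 4 * (b (x / 4) - x / 4) := by ring
    have h3 : |x - x| ≤ 4 * δ := by
      rw [sub_self, abs_zero]
      linarith
    split_ifs
    · exact h3
    · rw [h2, abs_mul, abs_of_pos (by norm_num : (0 : ℝ) < 4)]
      have := hd (x / 4)
      linarith
    · exact h3
  · intro x hx
    unfold chartlift_b
    split_ifs with a1 a2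
    · rfl
    · exact absurd ⟨(not_le.1 a1).le, a2⟩ hx
    · rfl

theorem chart_lift {b : ℝ ≃o ℝ} (hb : Lf b) {δ : ℝ} (h0 : 0 < δ) (h1 : δ < 1 / 64)
    (hd : ∀ x, |b x - x| ≤ δ) (hs : ∀ x ∈ Icc (7 / 16 : ℝ) (13 / 16), b x = x) :
    PExt b (192 * δ) := by
  obtain ⟨h, g1, g2, g3, g4, g5⟩ := exists_chart (chartlift_sml hb h0 h1 hd hs)
  refine ⟨h, g1, g2, fun t => ?_, fun z => (g5 z).trans (by linarith)⟩
  obtain ⟨n, t', ht, h5, h6⟩ : ∃ (n : ℤ) (t' : ℝ), t = t' + n ∧ -1 / 4 ≤ t' ∧ t' < 3 / 4 := by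
    refine ⟨⌊t + 1 / 4⌋, t - ⌊t + 1 / 4⌋, by ring, ?_, ?_⟩
    · have := Int.floor_le (t + 1 / 4)
      linarith
    · have := Int.lt_floor_add_one (t + 1 / 4)
      linarith
  rw [ht, hb.add_int, bp_add_int, bp_add_int]
  by_cases h7 : t' ≤ 1 / 2
  · rw [g3 t' ⟨h5, h7⟩]
    congr 1
    unfold chartlift_b
    split_ifs with a1 a2
    · have h8 := hb t'
      rw [hs (t' + 1) ⟨by linarith, by linarith⟩] at h8
      linarith
    · have h8 : 4 * t' / 4 = t' := by ring
      rw [h8]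
      ring
    · rw [hs t' ⟨by linarith, by linarith⟩]
      ring
  · have h8 := not_le.1 h7
    rw [g4 t' ⟨h8.le, h6.le⟩, hs t' ⟨by linarith, by linarith⟩]

/-- the rotation of the square -/
noncomputable def chartlift_R : (ℝ × ℝ) ≃ₜ (ℝ × ℝ) :=
  (Homeomorph.subLeft (1 : ℝ)).prodCongr (Homeomorph.subLeft (1 : ℝ))

theorem chartlift_R_apply (z : ℝ × ℝ) : chartlift_R z = (1 - z.1, 1 - z.2) := rfl

theorem chartlift_R_R (z : ℝ × ℝ) : chartlift_R (chartlift_R z) = z := by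
  rw [chartlift_R_apply, chartlift_R_apply]
  ext <;> simp

theorem chartlift_R_mp : MeasurePreserving chartlift_R (volume : Measure (ℝ × ℝ)) volume := by
  have h1 : MeasurePreserving (fun x : ℝ => 1 - x) volume volume :=
    Measure.measurePreserving_sub_left volume 1
  exact h1.prod h1

theorem chartlift_R_psq (z : ℝ × ℝ) : chartlift_R z ∈ psq ↔ z ∈ psq := by
  rw [chartlift_R_apply]
  unfold psq
  simp only [mem_prod, mem_Icc]
  constructor
  · rintro ⟨⟨a, b⟩, c, d⟩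
    exact ⟨⟨by linarith, by linarith⟩, by linarith, by linarith⟩
  · rintro ⟨⟨a, b⟩, c, d⟩
    exact ⟨⟨by linarith, by linarith⟩, by linarith, by linarith⟩

theorem chartlift_R_dist (z w : ℝ × ℝ) : dist (chartlift_R z) (chartlift_R w) = dist z w := by
  rw [chartlift_R_apply, chartlift_R_apply, Prod.dist_eq, Prod.dist_eq]
  simp only [dist_sub_left]

theorem chart_lift' {b : ℝ ≃o ℝ} (hb : Lf b) {δ : ℝ} (h0 : 0 < δ) (h1 : δ < 1 / 64)
    (hd : ∀ x, |b x - x| ≤ δ) (hs : ∀ x ∈ Icc (-1 / 16 : ℝ) (5 / 16), b x = x) :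
    PExt b (192 * δ) := by
  have hb' : Lf (tr (1 / 2) * b * (tr (1 / 2))⁻¹) :=
    ((Lf.tr (1 / 2)).mul hb).mul (Lf.tr (1 / 2)).inv
  have happ : ∀ x, (tr (1 / 2) * b * (tr (1 / 2))⁻¹) x = b (x - 1 / 2) + 1 / 2 := by
    intro x
    have h2 : (tr (1 / 2))⁻¹ x = x - 1 / 2 := by
      apply (tr (1 / 2)).injective
      rw [app_inv, tr_apply]
      ring
    rw [mul_app, mul_app, h2, tr_apply]
  obtain ⟨h, g1, g2, g3, g4⟩ := chart_lift hb' h0 h1
    (fun x => by
      rw [happ]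
      have h2 := hd (x - 1 / 2)
      have h3 : b (x - 1 / 2) + 1 / 2 - x = b (x - 1 / 2) - (x - 1 / 2) := by ring
      rw [h3]
      exact h2)
    (fun x hx => by
      rw [happ, hs (x - 1 / 2) ⟨by linarith [hx.1], by linarith [hx.2]⟩]
      ring)
  refine ⟨chartlift_R.trans (h.trans chartlift_R),
    chartlift_R_mp.comp (g1.comp chartlift_R_mp), fun z => ?_, fun t => ?_, fun z => ?_⟩
  · rw [Homeomorph.trans_apply, Homeomorph.trans_apply, chartlift_R_psq, g2, chartlift_R_psq]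
  · rw [Homeomorph.trans_apply, Homeomorph.trans_apply]
    have h2 : chartlift_R (bp t) = bp (t + 1 / 2) := by
      rw [bp_half, chartlift_R_apply]
    rw [h2, g3, happ, add_sub_cancel_right, bp_half, chartlift_R_apply]
    ext <;> simp
  · rw [Homeomorph.trans_apply, Homeomorph.trans_apply]
    calc dist (chartlift_R (h (chartlift_R z))) z
        = dist (chartlift_R (h (chartlift_R z))) (chartlift_R (chartlift_R z)) := by
          rw [chartlift_R_R]
      _ = dist (h (chartlift_R z)) (chartlift_R z) := chartlift_R_dist _ _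
      _ ≤ 192 * δ := g4 _

end Pool.Agent.W_d1cfb0_h29
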