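import Pool.Agent.W_d1cfb0_h29.Shear
import Pool.Agent.W_d1cfb0_h45.BdFacts

/-!
# The chart and the square

`psq` is the unit square in `ℝ × ℝ`, `bp` the parametrisation of its boundary.

* `chi_snd_nonneg`: by `chi_apply`: for `x ≤ y` the second coordinate is
  `min x (1 - 2 x + y)`, and `1 - 2 x + y ≥ 1 - x ≥ 0`; for `y ≤ x` it is `min y (1 - x)`.
* `chi_symm_mem`: `chi_symm_apply` and case distinctions (`min_def`, `split_ifs`), linear
  arithmetic: `Y = v + max (u - 1) 0 ∈ [0, 1)`, `X = u - 2 Y`, `x = Y + max X 0`, `y = Y + max (-X) 0`;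
  `Y + X = min u 1 - v - ... ≤ 1`, `Y - X = 3 Y - u = 3 v + max (2 u - 3) (-u) ≤ 9/128 + 7/8 < 1`.
* `chi_bp`: on `[-1/4, 0]`, `[0, 1/4]`, `[1/4, 1/2]` use `wave_a` ... `wave_d` (and
  `wave_add_one`) to compute `bp t`, and then `chi_apply`: `bp t = (0, -4 t)`, `(4 t, 0)`,
  `(1, 4 t - 1)`.
* `chi_bp_top`: on `[1/2, 3/4]` the point is `(x, 1)` with `x = 3 - 4 t ∈ [0, 1]`, so
  `chi = (3 x - 1, min x (2 - 2 x))`. If `3 x - 1 ≥ -13/16` then `x ≥ 1/16`, if `3 x - 1 ≤ 29/16` then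
  `x ≤ 15/16`, so `min x (2 - 2 x) ≥ 1/16 ≥ 3/128`.
-/

namespace Pool.Agent.W_d1cfb0_h29

open MeasureTheory Set Pool.Agent.W_d1cfb0_h45

/-- The unit square in `ℝ × ℝ`. -/
def psq : Set (ℝ × ℝ) := Icc 0 1 ×ˢ Icc 0 1

/-- The parametrisation of its boundary. -/
noncomputable def bp (t : ℝ) : ℝ × ℝ := (wave t, wave (t - 1 / 4))

theorem bp_mem (t : ℝ) : bp t ∈ psq := by
  exact ⟨⟨wave_nonneg _, wave_le_one _⟩, ⟨wave_nonneg _, wave_le_one _⟩⟩

theorem chisq_int (t : ℝ) (n : ℤ) : wave (t + n) = wave t := by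
  have hp : Function.Periodic wave 1 := wave_add_one
  have := hp.int_mul n t
  rwa [mul_one] at this

theorem bp_add_int (t : ℝ) (n : ℤ) : bp (t + n) = bp t := by
  unfold bp
  have h : t + n - 1 / 4 = (t - 1 / 4) + n := by ring
  rw [h, chisq_int, chisq_int]

theorem chisq_half_aux {t : ℝ} (h0 : 0 ≤ t) (h1 : t ≤ 1) : wave (t + 1 / 2) = 1 - wave t := by
  rcases le_total t (1 / 4) with h | h
  · rw [wave_a h0 h, wave_c (by linarith) (by linarith)]
    ring
  rcases le_total t (1 / 2) with h' | h'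
  · rw [wave_b h h', wave_d (by linarith) (by linarith)]
    ring
  have e : t + 1 / 2 = (t - 1 / 2) + 1 := by ring
  rw [e, wave_add_one]
  rcases le_total t (3 / 4) with h2 | h2
  · rw [wave_a (by linarith) (by linarith), wave_c h' h2]
    ring
  · rw [wave_b (by linarith) (by linarith), wave_d h2 h1]
    ring

theorem chisq_half (t : ℝ) : wave (t + 1 / 2) = 1 - wave t := by
  have h1 := chisq_half_aux (Int.fract_nonneg t) (Int.fract_lt_one t).le
  have h2 : t = Int.fract t + (⌊t⌋ : ℤ) := (Int.fract_add_floor t).symm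
  have h3 : t + 1 / 2 = (Int.fract t + 1 / 2) + (⌊t⌋ : ℤ) := by linarith
  rw [h3, chisq_int, h1]
  congr 1
  nth_rewrite 2 [h2]
  rw [chisq_int]

theorem chisq_sub (t : ℝ) : wave (t - 1 / 4) = wave (t + 3 / 4) := by
  have h : t + 3 / 4 = (t - 1 / 4) + 1 := by ring
  rw [h, wave_add_one]

theorem bp_half (t : ℝ) : bp (t + 1 / 2) = (1 - (bp t).1, 1 - (bp t).2) := by
  unfold bp
  have h : t + 1 / 2 - 1 / 4 = (t - 1 / 4) + 1 / 2 := by ring
  rw [h, chisq_half, chisq_half]

theorem chi_snd_nonneg {z : ℝ × ℝ} (hz : z ∈ psq) : 0 ≤ (chi z).2 := by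
  obtain ⟨⟨h1, h2⟩, ⟨h3, h4⟩⟩ := hz
  rw [chi_apply]
  simp only
  rcases le_total z.1 z.2 with h | h
  · rw [min_eq_left h]
    rcases le_total (1 - (z.1 - z.2 + 2 * z.1)) 0 with h' | h'
    · rw [min_eq_left h']
      linarith
    · rw [min_eq_right h']
      linarith
  · rw [min_eq_right h]
    rcases le_total (1 - (z.1 - z.2 + 2 * z.2)) 0 with h' | h'
    · rw [min_eq_left h']
      linarith
    · rw [min_eq_right h']
      linarith

theorem chi_symm_mem {w : ℝ × ℝ} (h1 : w.1 ∈ Icc (-7 / 8 : ℝ) (15 / 8))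
    (h2 : w.2 ∈ Icc (0 : ℝ) (3 / 128)) : chi.symm w ∈ psq := by
  obtain ⟨u, v⟩ := w
  obtain ⟨a1, a2⟩ := h1
  obtain ⟨a3, a4⟩ := h2
  simp only at a1 a2 a3 a4
  rw [chi_symm_apply]
  simp only
  rcases le_total (1 - u) 0 with h | h
  · rw [min_eq_left h]
    rcases le_total (u - 2 * (v - (1 - u))) 0 with h' | h'
    · rw [min_eq_left h']
      exact ⟨⟨by linarith, by linarith⟩, ⟨by linarith, by linarith⟩⟩
    · rw [min_eq_right h']
      exact ⟨⟨by linarith, by linarith⟩, ⟨by linarith, by linarith⟩⟩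
  · rw [min_eq_right h]
    rcases le_total (u - 2 * (v - 0)) 0 with h' | h'
    · rw [min_eq_left h']
      exact ⟨⟨by linarith, by linarith⟩, ⟨by linarith, by linarith⟩⟩
    · rw [min_eq_right h']
      exact ⟨⟨by linarith, by linarith⟩, ⟨by linarith, by linarith⟩⟩

theorem chi_bp {t : ℝ} (ht : t ∈ Icc (-1 / 4 : ℝ) (1 / 2)) : chi (bp t) = (4 * t, 0) := by
  obtain ⟨h1, h2⟩ := ht
  rw [chi_apply]
  unfold bp
  simp only
  rcases le_total t 0 with h | h
  · have e1 : wave t = 0 := by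
      rw [← wave_add_one]
      exact wave_d (by linarith) (by linarith)
    have e2 : wave (t - 1 / 4) = -(4 * t) := by
      rw [chisq_sub, wave_c (by linarith) (by linarith)]
      ring
    rw [e1, e2, min_eq_left (by linarith), min_eq_right (by linarith)]
    refine Prod.ext ?_ ?_
    · simp only
      ring
    · simp
  rcases le_total t (1 / 4) with h' | h'
  · have e1 : wave t = 4 * t := wave_a h h'
    have e2 : wave (t - 1 / 4) = 0 := by
      rw [chisq_sub, wave_d (by linarith) (by linarith)]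
    rw [e1, e2, min_eq_right (by linarith), min_eq_right (by linarith)]
    refine Prod.ext ?_ ?_
    · simp
    · simp
  · have e1 : wave t = 1 := wave_b h' h2
    have e2 : wave (t - 1 / 4) = 4 * t - 1 := by
      rw [wave_a (by linarith) (by linarith)]
      ring
    rw [e1, e2, min_eq_right (by linarith), min_eq_left (by linarith)]
    refine Prod.ext ?_ ?_
    · simp only
      ring
    · simp only
      ring

theorem chi_bp_top {t : ℝ} (ht : t ∈ Icc (1 / 2 : ℝ) (3 / 4)) :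
    (chi (bp t)).1 ∉ Icc (-13 / 16 : ℝ) (29 / 16) ∨ 3 / 128 ≤ |(chi (bp t)).2| := by
  obtain ⟨h1, h2⟩ := ht
  rw [chi_apply]
  unfold bp
  simp only
  have e1 : wave t = 3 - 4 * t := wave_c h1 h2
  have e2 : wave (t - 1 / 4) = 1 := wave_b (by linarith) (by linarith)
  rw [e1, e2, min_eq_left (by linarith)]
  by_cases hc : (3 - 4 * t - 1 + 2 * (3 - 4 * t)) ∈ Icc (-13 / 16 : ℝ) (29 / 16)
  · right
    obtain ⟨h3, h4⟩ := hc
    refine le_trans ?_ (le_abs_self _)
    rcases le_total (1 - (3 - 4 * t - 1 + 2 * (3 - 4 * t))) 0 with h' | h'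
    · rw [min_eq_left h']
      linarith
    · rw [min_eq_right h']
      linarith
  · exact Or.inl hc

end Pool.Agent.W_d1cfb0_h29
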