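import Pool.Agent.W_d1cfb0_h29.Strip
import Pool.Agent.W_d1cfb0_h29.ChiSq

/-!
# The local extension in the chart

Proof. Let `T` be the map of `exists_strip` (here `p - 1/16 = -13/16`, `q + 1/16 = 29/16`) and
`h = chi.trans (T.trans chi.symm)`, `h z = chi.symm (T (chi z))`; it is measure preserving
(`mp_chi`, `mp_chi_symm`), and `dist (h z) z = dist (chi.symm (T (chi z))) (chi.symm (chi z)) ≤
24 * 2 * del`.

`h z ∈ psq ↔ z ∈ psq`. First, `0 ≤ (T z).2 ↔ 0 ≤ z.2`: if `z.2 < 0` and `0 ≤ (T z).2` then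
`(T z).2 = 0`, say `T z = (x, 0)`; `b` is surjective (continuous, bounded displacement), so
`T z = (b x', 0) = T (x', 0)` and `z = (x', 0)`, a contradiction. Let
`R = {w | w.1 ∈ [-13/16, 29/16], |w.2| < 3/128}`. `T` is the identity off `R`, and it is
injective, so `T w ∈ R ↔ w ∈ R` (if `w ∈ R` and `T w ∉ R` then `T (T w) = T w`, so `T w = w`, a
contradiction; if `w ∉ R` then `T w = w ∉ R`). Now put `w = chi z`. If `w ∉ R` then `h z = z`.
If `w ∈ R` and `z ∈ psq` then `0 ≤ w.2` (`chi_snd_nonneg`), so `0 ≤ (T w).2`, `T w ∈ R` and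
`chi_symm_mem` gives `h z ∈ psq`. If `w ∈ R` and `h z ∈ psq` then `T w = chi (h z)` has
`0 ≤ (T w).2`, so `0 ≤ w.2`, and `z = chi.symm w ∈ psq` by `chi_symm_mem`.

Boundary: for `t ∈ [-1/4, 1/2]`: `T (chi (bp t)) = T (4 t, 0) = (b (4 t), 0)` and `b (4 t) ∈ [-1, 2]`
as `b` is increasing with `b (-1) = -1`, `b 2 = 2`; so it is `chi (bp (b (4 t) / 4))`. For
`t ∈ [1/2, 3/4]` use `chi_bp_top`.
-/

namespace Pool.Agent.W_d1cfb0_h29

open MeasureTheory Set Pool.Agent.W_d1cfb0_h45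

theorem exists_chart {b : ℝ → ℝ} {del : ℝ} (hb : Sml b (-3 / 4) (7 / 4) del) :
    ∃ h : (ℝ × ℝ) ≃ₜ (ℝ × ℝ), MeasurePreserving h (volume : Measure (ℝ × ℝ)) volume ∧
      (∀ z, h z ∈ psq ↔ z ∈ psq) ∧
      (∀ t ∈ Icc (-1 / 4 : ℝ) (1 / 2), h (bp t) = bp (b (4 * t) / 4)) ∧
      (∀ t ∈ Icc (1 / 2 : ℝ) (3 / 4), h (bp t) = bp t) ∧
      ∀ z, dist (h z) z ≤ 48 * del := by
  obtain ⟨T, hmp, hT0, hTx, hTy, hTpos, hTneg, hTd⟩ := exists_strip hb
  have e1 : (-3 / 4 : ℝ) - 1 / 16 = -13 / 16 := by norm_num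
  have e2 : (7 / 4 : ℝ) + 1 / 16 = 29 / 16 := by norm_num
  rw [e1, e2] at hTx
  have hdel := hb.pos
  have hsurj : ∀ y : ℝ, ∃ x, b x = y := by
    intro y
    have h1 : b (y - del) ≤ y := by
      have := (abs_le.1 (hb.close (y - del))).2
      linarith
    have h2 : y ≤ b (y + del) := by
      have := (abs_le.1 (hb.close (y + del))).1
      linarith
    obtain ⟨x, -, hx⟩ := intermediate_value_Icc (f := b) (a := y - del) (b := y + del)
      (by linarith) hb.cont.continuousOn ⟨h1, h2⟩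
    exact ⟨x, hx⟩
  have hsign : ∀ z : ℝ × ℝ, 0 ≤ (T z).2 → 0 ≤ z.2 := by
    intro z hz
    by_contra hcon
    rw [not_le] at hcon
    have h0 : (T z).2 = 0 := le_antisymm (hTneg z hcon.le) hz
    obtain ⟨x, hx⟩ := hsurj (T z).1
    have h1 : T (x, 0) = T z := by
      rw [hT0, hx]
      exact Prod.ext rfl h0.symm
    have h2 : ((x, 0) : ℝ × ℝ) = z := T.injective h1
    rw [← h2] at hcon
    exact lt_irrefl _ hcon
  have hoff : ∀ w : ℝ × ℝ, ¬ (w.1 ∈ Icc (-13 / 16 : ℝ) (29 / 16) ∧ |w.2| < 3 / 128) →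
      T w = w := by
    intro w hw
    by_cases h1 : w.1 ∈ Icc (-13 / 16 : ℝ) (29 / 16)
    · refine hTy w ?_
      by_contra hcon
      exact hw ⟨h1, not_le.1 hcon⟩
    · exact hTx w h1
  have hR : ∀ w : ℝ × ℝ, (w.1 ∈ Icc (-13 / 16 : ℝ) (29 / 16) ∧ |w.2| < 3 / 128) →
      ((T w).1 ∈ Icc (-13 / 16 : ℝ) (29 / 16) ∧ |(T w).2| < 3 / 128) := by
    intro w hw
    by_contra hcon
    have h1 := hoff (T w) hcon
    have h2 : T w = w := T.injective h1
    rw [h2] at hcon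
    exact hcon hw
  have hmem : ∀ w : ℝ × ℝ, (w.1 ∈ Icc (-13 / 16 : ℝ) (29 / 16) ∧ |w.2| < 3 / 128) →
      0 ≤ w.2 → chi.symm w ∈ psq := by
    rintro w ⟨⟨h1, h2⟩, h3⟩ h4
    refine chi_symm_mem ⟨by linarith, by linarith⟩ ⟨h4, ?_⟩
    rw [abs_of_nonneg h4] at h3
    exact h3.le
  have hfix : ∀ z : ℝ × ℝ, T (chi z) = chi z → chi.symm (T (chi z)) = z := by
    intro z hz
    rw [hz, chi.symm_apply_apply]
  refine ⟨(chi.trans T).trans chi.symm, ?_, ?_, ?_, ?_, ?_⟩
  · exact mp_chi_symm.comp (hmp.comp mp_chi)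
  · intro z
    change chi.symm (T (chi z)) ∈ psq ↔ z ∈ psq
    by_cases hw : (chi z).1 ∈ Icc (-13 / 16 : ℝ) (29 / 16) ∧ |(chi z).2| < 3 / 128
    · constructor
      · intro h
        have h1 := chi_snd_nonneg h
        rw [chi.apply_symm_apply] at h1
        have h2 := hmem (chi z) hw (hsign _ h1)
        rwa [chi.symm_apply_apply] at h2
      · intro h
        have h1 := chi_snd_nonneg h
        exact hmem (T (chi z)) (hR _ hw) (hTpos _ h1)
    · rw [hfix z (hoff _ hw)]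
  · intro t ht
    change chi.symm (T (chi (bp t))) = _
    rw [chi_bp ht, hT0]
    have h1 : b (-1) = -1 := hb.off _ (fun h => by
      have := h.1
      norm_num at this)
    have h2 : b 2 = 2 := hb.off _ (fun h => by
      have := h.2
      norm_num at this)
    have h3 : -1 ≤ b (4 * t) := by
      rw [← h1]
      exact hb.mono.monotone (by linarith [ht.1])
    have h4 : b (4 * t) ≤ 2 := by
      rw [← h2]
      exact hb.mono.monotone (by linarith [ht.2])
    have h5 : b (4 * t) / 4 ∈ Icc (-1 / 4 : ℝ) (1 / 2) := ⟨by linarith, by linarith⟩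
    rw [Homeomorph.symm_apply_eq, chi_bp h5]
    ext <;> simp
    ring
  · intro t ht
    change chi.symm (T (chi (bp t))) = _
    refine hfix _ ?_
    rcases chi_bp_top ht with h | h
    · exact hTx _ h
    · exact hTy _ h
  · intro z
    change dist (chi.symm (T (chi z))) z ≤ _
    have h1 := chi_symm_lip (T (chi z)) (chi z)
    rw [chi.symm_apply_apply] at h1
    have h2 := hTd (chi z)
    linarith

end Pool.Agent.W_d1cfb0_h29
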