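import Mathlib

/-!
# Extension of small boundary homeomorphisms to area preserving homeomorphisms: definitions

The local picture: `b : ℝ → ℝ` is a small increasing homeomorphism of the line with support in
`[p, q]`. We extend it to a homeomorphism of the plane which preserves area, the half planes
`t ≥ 0`, `t ≤ 0`, and is the identity for `|t| ≥ 3/128` and for `x ∉ [p - 1/16, q + 1/16]`.

`F (·, t)` is the average of `b` over `[x - √t, x + √t]` (cut off in `t`, compensated by a multiple
of `K`), its `x`-derivative `f` is explicit, and `V (x, ·)` is the primitive of `f (x, ·)`: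
`(x, t) ↦ (F (x, t), t)` and `(x, t) ↦ (x, V (x, t))` both map the measure `f dx dt` to `dx dt`.
-/

namespace Pool.Agent.W_d1cfb0_h29

open MeasureTheory Set

/-- `b` is an increasing homeomorphism of the line, `del`-close to the identity (`del < 1/16`), and
equal to the identity off `[p, q]`. -/
structure Sml (b : ℝ → ℝ) (p q del : ℝ) : Prop where
  cont : Continuous b
  mono : StrictMono b
  close : ∀ x, |b x - x| ≤ del
  off : ∀ x, x ∉ Icc p q → b x = x
  pos : 0 < del
  lt : del < 1 / 16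

/-- Cut-off function of `ℓ = √t`. -/
noncomputable def eta (l : ℝ) : ℝ := max 0 (1 - 16 * l)

/-- Bump function with integral `1` and support `[1/128, 3/128]`. -/
noncomputable def zeta (t : ℝ) : ℝ := max 0 (128 - 128 ^ 2 * |t - 1 / 64|)

/-- The primitive of `zeta`. -/
noncomputable def N (t : ℝ) : ℝ := ∫ u in (0 : ℝ)..t, zeta u

/-- The displacement of `b`. -/
def dl (b : ℝ → ℝ) (x : ℝ) : ℝ := b x - x

/-- The primitive of the displacement. -/
noncomputable def A (b : ℝ → ℝ) (x : ℝ) : ℝ := ∫ u in (0 : ℝ)..x, dl b u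

/-- The average of the displacement over `[x - l, x + l]`. -/
noncomputable def Mn (b : ℝ → ℝ) (x l : ℝ) : ℝ := (1 / 2) * ∫ v in (-1 : ℝ)..1, dl b (x + l * v)

/-- `K x = ∫ η(√t) (average over [x - √t, x + √t]) dt`, written with `l = √t`. -/
noncomputable def K (b : ℝ → ℝ) (x : ℝ) : ℝ :=
  ∫ l in (0 : ℝ)..(1 / 16), eta l * (A b (x + l) - A b (x - l))

/-- `G (x, √t)` is the primitive in `t` of `η(√t) (dl (x + √t) - dl (x - √t)) / (2 √t)`. -/
noncomputable def G (b : ℝ → ℝ) (x r : ℝ) : ℝ :=
  ∫ l in (0 : ℝ)..r, eta l * (dl b (x + l) - dl b (x - l))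

/-- The derivative of `K`. -/
noncomputable def k (b : ℝ → ℝ) (x : ℝ) : ℝ := G b x (1 / 16)

/-- The horizontal map. -/
noncomputable def F (b : ℝ → ℝ) (z : ℝ × ℝ) : ℝ :=
  z.1 + eta √|z.2| * Mn b z.1 √|z.2| - zeta |z.2| * K b z.1

/-- Auxiliary: the displacement of the vertical map for `t ≥ 0`. -/
noncomputable def B (b : ℝ → ℝ) (x t : ℝ) : ℝ := G b x √t - N t * k b x

/-- The vertical map. -/
noncomputable def V (b : ℝ → ℝ) (z : ℝ × ℝ) : ℝ :=
  z.2 + B b z.1 (max z.2 0) - B b z.1 (max (-z.2) 0)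

/-- The common density. -/
noncomputable def f (b : ℝ → ℝ) (z : ℝ × ℝ) : ℝ :=
  1 + eta √|z.2| * ((dl b (z.1 + √|z.2|) - dl b (z.1 - √|z.2|)) / (2 * √|z.2|))
    - zeta |z.2| * k b z.1

end Pool.Agent.W_d1cfb0_h29
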