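import Pool.Agent.W_d1cfb0_h29.AvgG

/-!
# The density

`f_pos`: let `ℓ = √|t| > 0`, `e = eta ℓ ∈ [0, 1)`. By `eta_or_zeta |t|` either `zeta |t| = 0`, and
then `f = (1 - e) + e * (b (x + ℓ) - b (x - ℓ)) / (2 ℓ) > 0` (as
`(dl (x + ℓ) - dl (x - ℓ)) / (2 ℓ) = (b (x + ℓ) - b (x - ℓ)) / (2 ℓ) - 1`, `b` is increasing and
`e < 1`), or `eta ℓ = 0` and `f = 1 - zeta |t| * k b x ≥ 1 - 128 * del / 8 > 0` since `del < 1/16`.

`measurable_f`: `z ↦ √|z.2|` and the functions `eta, zeta, dl b, k b` are continuous; division is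
measurable (`Measurable.div`).
-/

namespace Pool.Agent.W_d1cfb0_h29

open MeasureTheory Set

variable {b : ℝ → ℝ} {p q del : ℝ}

theorem f_pos (hb : Sml b p q del) (x t : ℝ) (ht : t ≠ 0) : 0 < f b (x, t) := by
  have hl : 0 < √|t| := Real.sqrt_pos.2 (abs_pos.2 ht)
  unfold f
  simp only
  rcases eta_or_zeta |t| with h | h
  · rw [h, zero_mul, add_zero]
    have h1 := abs_le.1 (abs_k_le hb x)
    have h2 := zeta_le |t|
    have h3 := zeta_nonneg |t|
    have h5 : zeta |t| * k b x ≤ zeta |t| * (del / 8) := mul_le_mul_of_nonneg_left h1.2 h3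
    have h6 : zeta |t| * (del / 8) ≤ 128 * (del / 8) :=
      mul_le_mul_of_nonneg_right h2 (by have := hb.pos; linarith)
    have := hb.lt
    linarith
  · rw [h, zero_mul, sub_zero]
    set l := √|t| with hlt
    have h1 : b (x - l) < b (x + l) := hb.mono (by linarith)
    have h2 : (dl b (x + l) - dl b (x - l)) / (2 * l) = (b (x + l) - b (x - l)) / (2 * l) - 1 := by
      unfold dl
      field_simp
      ring
    have h3 : 0 < (b (x + l) - b (x - l)) / (2 * l) := div_pos (by linarith) (by linarith)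
    have h4 := eta_nonneg l
    have h5 := eta_lt_one hl
    rw [h2]
    have h6 := mul_nonneg h4 h3.le
    have h7 : 1 + eta l * ((b (x + l) - b (x - l)) / (2 * l) - 1) =
        (1 - eta l) + eta l * ((b (x + l) - b (x - l)) / (2 * l)) := by ring
    rw [h7]
    linarith

theorem measurable_f (hb : Sml b p q del) : Measurable (f b) := by
  have hs : Continuous fun z : ℝ × ℝ => √|z.2| := (continuous_snd.abs).sqrt
  have h1 : Measurable fun z : ℝ × ℝ => eta √|z.2| := (continuous_eta.comp hs).measurable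
  have h2 : Measurable fun z : ℝ × ℝ => dl b (z.1 + √|z.2|) - dl b (z.1 - √|z.2|) :=
    (((continuous_dl hb).comp (continuous_fst.add hs)).sub
      ((continuous_dl hb).comp (continuous_fst.sub hs))).measurable
  have h3 : Measurable fun z : ℝ × ℝ => 2 * √|z.2| := (continuous_const.mul hs).measurable
  have h4 : Measurable fun z : ℝ × ℝ => zeta |z.2| * k b z.1 :=
    ((continuous_zeta.comp continuous_snd.abs).mul
      ((continuous_k hb).comp continuous_fst)).measurable
  unfold f
  exact ((measurable_const.add (h1.mul (h2.div h3))).sub h4)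

end Pool.Agent.W_d1cfb0_h29
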