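import Pool.Agent.W_d1cfb0_h29.Dens

/-!
# The horizontal map

* `hasDerivAt_F`: `hasDerivAt_Mn` (with `l = √|t| ≠ 0`) and `hasDerivAt_K`.
* `strictMono_F`: for `t ≠ 0` by the positive derivative (`strictMono_of_deriv_pos`); for `t = 0`
  by `F_zero`.
* `abs_F_sub_le`: `|eta √|t| * Mn| ≤ del`, `|zeta * K| ≤ 128 * del / 128`.
* `F_far`: `eta √|t| = 0` (`eta_sqrt_eq_zero`) and `zeta |t| = 0`.
* `F_off`: `K_off`, and `eta √|t| * Mn b x √|t| = 0`: if `√|t| ≤ 1/16` by `Mn_off`, otherwise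
  `eta √|t| = 0`.
-/

namespace Pool.Agent.W_d1cfb0_h29

open MeasureTheory Set

variable {b : ℝ → ℝ} {p q del : ℝ}

theorem continuous_F (hb : Sml b p q del) : Continuous (F b) := by
  have h1 : Continuous fun z : ℝ × ℝ => √|z.2| := (continuous_snd.abs).sqrt
  have h2 : Continuous fun z : ℝ × ℝ => Mn b z.1 √|z.2| :=
    (continuous_Mn hb).comp (continuous_fst.prodMk h1)
  have h3 : Continuous fun z : ℝ × ℝ => K b z.1 := (continuous_K hb).comp continuous_fst
  have h4 : Continuous fun z : ℝ × ℝ => eta √|z.2| := continuous_eta.comp h1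
  have h5 : Continuous fun z : ℝ × ℝ => zeta |z.2| := continuous_zeta.comp continuous_snd.abs
  exact (continuous_fst.add (h4.mul h2)).sub (h5.mul h3)

theorem hasDerivAt_F (hb : Sml b p q del) (x t : ℝ) (ht : t ≠ 0) :
    HasDerivAt (fun x => F b (x, t)) (f b (x, t)) x := by
  have hl : √|t| ≠ 0 := by
    have : 0 < √|t| := Real.sqrt_pos.2 (abs_pos.2 ht)
    exact this.ne'
  have h1 := (hasDerivAt_Mn hb hl x).const_mul (eta √|t|)
  have h2 := (hasDerivAt_K hb x).const_mul (zeta |t|)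
  exact ((hasDerivAt_id x).add h1).sub h2

theorem F_zero (b : ℝ → ℝ) (x : ℝ) : F b (x, 0) = b x := by
  unfold F
  have h1 : zeta 0 = 0 := zeta_eq_zero (by norm_num)
  simp only [abs_zero, Real.sqrt_zero, eta_zero, h1, Mn_zero, dl]
  ring

theorem strictMono_F (hb : Sml b p q del) (t : ℝ) : StrictMono fun x => F b (x, t) := by
  rcases eq_or_ne t 0 with rfl | ht
  · simp only [F_zero]
    exact hb.mono
  · refine strictMono_of_deriv_pos fun x => ?_
    rw [(hasDerivAt_F hb x t ht).deriv]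
    exact f_pos hb x t ht

theorem abs_F_sub_le (hb : Sml b p q del) (z : ℝ × ℝ) : |F b z - z.1| ≤ 2 * del := by
  have h1 := abs_Mn_le hb z.1 √|z.2|
  have h2 := abs_K_le hb z.1
  have h3 := eta_le_one (Real.sqrt_nonneg |z.2|)
  have h4 := eta_nonneg √|z.2|
  have h5 := zeta_le |z.2|
  have h6 := zeta_nonneg |z.2|
  have hd := hb.pos
  have e : F b z - z.1 = eta √|z.2| * Mn b z.1 √|z.2| - zeta |z.2| * K b z.1 := by
    unfold F
    ring
  rw [e]
  generalize eta √|z.2| = u at *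
  generalize Mn b z.1 √|z.2| = v at *
  generalize zeta |z.2| = w at *
  generalize K b z.1 = y at *
  have h7 : |u * v| ≤ 1 * del := by
    rw [abs_mul, abs_of_nonneg h4]
    exact mul_le_mul h3 h1 (abs_nonneg _) zero_le_one
  have h8 : |w * y| ≤ 128 * (del / 128) := by
    rw [abs_mul, abs_of_nonneg h6]
    exact mul_le_mul h5 h2 (abs_nonneg _) (by norm_num)
  calc |u * v - w * y| ≤ |u * v| + |w * y| := abs_sub _ _
    _ ≤ 1 * del + 128 * (del / 128) := add_le_add h7 h8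
    _ = 2 * del := by ring

theorem F_far (b : ℝ → ℝ) {z : ℝ × ℝ} (hz : 3 / 128 ≤ |z.2|) : F b z = z.1 := by
  unfold F
  rw [eta_sqrt_eq_zero hz, zeta_eq_zero' hz]
  ring

theorem F_off (hb : Sml b p q del) {z : ℝ × ℝ} (hz : z.1 ∉ Icc (p - 1 / 16) (q + 1 / 16)) :
    F b z = z.1 := by
  unfold F
  rw [K_off hb hz]
  rcases le_or_gt √|z.2| (1 / 16) with h | h
  · rw [Mn_off hb hz (Real.sqrt_nonneg _) h]
    ring
  · rw [eta_eq_zero h.le]
    ring

end Pool.Agent.W_d1cfb0_h29
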