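import Pool.Agent.W_d1cfb0_h29.Defs

/-!
# Fibre preserving homeomorphisms of the plane

* `exists_fibre`, `exists_fibre'`: a fibre preserving map of bounded displacement, strictly
  increasing on the fibres, is a homeomorphism. Proof: each fibre map is continuous, strictly
  increasing and tends to `±∞` at `±∞` (displacement bounded by `C`), so bijective (intermediate
  value theorem, `Continuous.surjective`); so `z ↦ (Φ z, z.2)` is a continuous bijection `W`. It
  is proper: the preimage of a compact set is closed and bounded (`dist (W z) z ≤ C`), so compact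
  (`isProperMap_iff_isCompact_preimage`), hence closed (`IsProperMap.isClosedMap`), hence a
  homeomorphism (`Equiv.toHomeomorphOfContinuousClosed` or the like). The primed version is
  conjugate to the first one by `Homeomorph.prodComm`.
-/

namespace Pool.Agent.W_d1cfb0_h29

open MeasureTheory Set

theorem fibrehomeo_cont {Φ τ : ℝ × ℝ → ℝ} (hc : Continuous Φ)
    (hm : ∀ y, StrictMono fun x => Φ (x, y)) (hτ : ∀ z : ℝ × ℝ, Φ (τ z, z.2) = z.1) :
    Continuous τ := by
  rw [continuous_iff_continuousAt]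
  intro z₀
  have hline : ∀ t : ℝ, Continuous fun z : ℝ × ℝ => Φ (t, z.2) := fun t =>
    hc.comp (continuous_const.prodMk continuous_snd)
  refine tendsto_order.2 ⟨fun t ht => ?_, fun t ht => ?_⟩
  · have h1 : Φ (t, z₀.2) < z₀.1 := by
      rw [← hτ z₀]
      exact hm z₀.2 ht
    have h2 : ∀ᶠ z in nhds z₀, Φ (t, z.2) < z.1 :=
      (hline t).continuousAt.eventually_lt continuous_fst.continuousAt h1
    filter_upwards [h2] with z hz
    rw [← hτ z] at hz
    exact (hm z.2).lt_iff_lt.1 hz
  · have h1 : z₀.1 < Φ (t, z₀.2) := by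
      rw [← hτ z₀]
      exact hm z₀.2 ht
    have h2 : ∀ᶠ z in nhds z₀, z.1 < Φ (t, z.2) :=
      continuous_fst.continuousAt.eventually_lt (hline t).continuousAt h1
    filter_upwards [h2] with z hz
    rw [← hτ z] at hz
    exact (hm z.2).lt_iff_lt.1 hz

theorem exists_fibre {Φ : ℝ × ℝ → ℝ} (hc : Continuous Φ) (hm : ∀ y, StrictMono fun x => Φ (x, y))
    {C : ℝ} (hC : ∀ z, |Φ z - z.1| ≤ C) :
    ∃ W : (ℝ × ℝ) ≃ₜ (ℝ × ℝ), ∀ z, W z = (Φ z, z.2) := by
  have hex : ∀ z : ℝ × ℝ, ∃ t, Φ (t, z.2) = z.1 := by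
    intro z
    have hcz : Continuous fun x : ℝ => Φ (x, z.2) :=
      hc.comp (continuous_id.prodMk continuous_const)
    refine mem_range_of_exists_le_of_exists_ge hcz ⟨z.1 - C, ?_⟩ ⟨z.1 + C, ?_⟩
    · have h := (abs_le.1 (hC (z.1 - C, z.2))).2
      simp only at h ⊢
      linarith
    · have h := (abs_le.1 (hC (z.1 + C, z.2))).1
      simp only at h ⊢
      linarith
  choose τ hτ using hex
  have hτc : Continuous τ := fibrehomeo_cont hc hm hτ
  refine ⟨{ toFun := fun z => (Φ z, z.2)
            invFun := fun z => (τ z, z.2)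
            left_inv := ?_
            right_inv := ?_
            continuous_toFun := hc.prodMk continuous_snd
            continuous_invFun := hτc.prodMk continuous_snd }, fun z => rfl⟩
  · intro z
    have h : Φ (τ (Φ z, z.2), z.2) = Φ (z.1, z.2) := hτ (Φ z, z.2)
    exact Prod.ext ((hm z.2).injective h) rfl
  · intro z
    exact Prod.ext (hτ z) rfl

theorem exists_fibre' {Φ : ℝ × ℝ → ℝ} (hc : Continuous Φ) (hm : ∀ x, StrictMono fun y => Φ (x, y))
    {C : ℝ} (hC : ∀ z, |Φ z - z.2| ≤ C) :
    ∃ W : (ℝ × ℝ) ≃ₜ (ℝ × ℝ), ∀ z, W z = (z.1, Φ z) := by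
  obtain ⟨W, hW⟩ := exists_fibre (Φ := fun z => Φ z.swap) (hc.comp continuous_swap)
    (fun y => hm y) (fun z => hC z.swap)
  refine ⟨(Homeomorph.prodComm ℝ ℝ).trans (W.trans (Homeomorph.prodComm ℝ ℝ)), fun z => ?_⟩
  show (W z.swap).swap = (z.1, Φ z)
  rw [hW]
  rfl

end Pool.Agent.W_d1cfb0_h29
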