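import Pool.Agent.W_d1cfb0_h29.OneD

/-!
# Measures of images under fibre preserving homeomorphisms

* `volume_fibre`, `volume_fibre'`: Fubini and `oneD`. `W '' s` is measurable
  (`W.toMeasurableEquiv`/`Homeomorph.measurableEmbedding`), the slice of `W '' s` at height `y` is
  the image of the slice of `s` under `x ↦ Φ (x, y)`. `volume (W '' s) = ∫⁻ y, volume (slice y)`
  (`Measure.volume_eq_prod`, `Measure.prod_apply_symm`), the slice `y = 0` does not matter (null),
  and `∫⁻ z in s, φ z = ∫⁻ y, ∫⁻ x in slice y, φ (x, y)` (`lintegral_prod_symm` applied to the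
  indicator). The primed version: slices at fixed `x`, `oneD` with the exceptional point `y = 0`.
-/

namespace Pool.Agent.W_d1cfb0_h29

open MeasureTheory Set

theorem volume_fibre {Φ φ : ℝ × ℝ → ℝ} {W : (ℝ × ℝ) ≃ₜ (ℝ × ℝ)} (hW : ∀ z, W z = (Φ z, z.2))
    (hm : ∀ y, StrictMono fun x => Φ (x, y))
    (hd : ∀ x y, y ≠ 0 → HasDerivAt (fun x => Φ (x, y)) (φ (x, y)) x)
    (hpos : ∀ x y, y ≠ 0 → 0 < φ (x, y)) (hφ : Measurable φ) {s : Set (ℝ × ℝ)}
    (hs : MeasurableSet s) : volume (W '' s) = ∫⁻ z in s, ENNReal.ofReal (φ z) := by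
  have hWs : MeasurableSet (W '' s) := W.measurableEmbedding.measurableSet_image.2 hs
  have hf : Measurable (fun z => ENNReal.ofReal (φ z)) := hφ.ennreal_ofReal
  rw [← lintegral_indicator hs, Measure.volume_eq_prod, Measure.prod_apply_symm hWs,
    lintegral_prod_symm _ (hf.indicator hs).aemeasurable]
  refine lintegral_congr_ae ?_
  have h0 : ∀ᵐ y : ℝ, y ≠ 0 := by
    rw [ae_iff]
    simp
  filter_upwards [h0] with y hy
  have e1 : (fun x => (x, y)) ⁻¹' (W '' s) =
      (fun x => Φ (x, y)) '' ((fun x => (x, y)) ⁻¹' s) := by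
    ext u
    simp only [mem_preimage, mem_image]
    constructor
    · rintro ⟨⟨x, y'⟩, hz, he⟩
      rw [hW] at he
      have h1 : Φ (x, y') = u := congrArg Prod.fst he
      have h2 : y' = y := congrArg Prod.snd he
      rw [h2] at hz h1
      exact ⟨x, hz, h1⟩
    · rintro ⟨x, hx, he⟩
      refine ⟨(x, y), hx, ?_⟩
      rw [hW, he]
  have hsl : MeasurableSet ((fun x : ℝ => (x, y)) ⁻¹' s) := measurable_prodMk_right hs
  have e2 : (fun x => s.indicator (fun z => ENNReal.ofReal (φ z)) (x, y)) =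
      ((fun x : ℝ => (x, y)) ⁻¹' s).indicator (fun x => ENNReal.ofReal (φ (x, y))) := by
    funext x
    by_cases hx : (x, y) ∈ s
    · rw [indicator_of_mem hx, indicator_of_mem (show x ∈ (fun x : ℝ => (x, y)) ⁻¹' s from hx)]
    · rw [indicator_of_notMem hx,
        indicator_of_notMem (show x ∉ (fun x : ℝ => (x, y)) ⁻¹' s from hx)]
  rw [e1, e2, lintegral_indicator hsl]
  exact oneD (φ := fun x => Φ (x, y)) (φ' := fun x => φ (x, y)) (hm y) (fun x _ => hd x y hy)
    (fun x _ => hpos x y hy) hsl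

theorem volume_fibre' {Φ φ : ℝ × ℝ → ℝ} {W : (ℝ × ℝ) ≃ₜ (ℝ × ℝ)} (hW : ∀ z, W z = (z.1, Φ z))
    (hm : ∀ x, StrictMono fun y => Φ (x, y))
    (hd : ∀ x y, y ≠ 0 → HasDerivAt (fun y => Φ (x, y)) (φ (x, y)) y)
    (hpos : ∀ x y, y ≠ 0 → 0 < φ (x, y)) (hφ : Measurable φ) {s : Set (ℝ × ℝ)}
    (hs : MeasurableSet s) : volume (W '' s) = ∫⁻ z in s, ENNReal.ofReal (φ z) := by
  have hWs : MeasurableSet (W '' s) := W.measurableEmbedding.measurableSet_image.2 hs
  have hf : Measurable (fun z => ENNReal.ofReal (φ z)) := hφ.ennreal_ofReal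
  rw [← lintegral_indicator hs, Measure.volume_eq_prod, Measure.prod_apply hWs,
    lintegral_prod _ (hf.indicator hs).aemeasurable]
  refine lintegral_congr fun x => ?_
  have e1 : Prod.mk x ⁻¹' (W '' s) = (fun y => Φ (x, y)) '' (Prod.mk x ⁻¹' s) := by
    ext u
    simp only [mem_preimage, mem_image]
    constructor
    · rintro ⟨⟨x', y⟩, hz, he⟩
      rw [hW] at he
      have h1 : x' = x := congrArg Prod.fst he
      have h2 : Φ (x', y) = u := congrArg Prod.snd he
      rw [h1] at hz h2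
      exact ⟨y, hz, h2⟩
    · rintro ⟨y, hy, he⟩
      refine ⟨(x, y), hy, ?_⟩
      rw [hW, he]
  have hsl : MeasurableSet (Prod.mk x ⁻¹' s) := measurable_prodMk_left hs
  have e2 : (fun y => s.indicator (fun z => ENNReal.ofReal (φ z)) (x, y)) =
      (Prod.mk x ⁻¹' s).indicator (fun y => ENNReal.ofReal (φ (x, y))) := by
    funext y
    by_cases hy : (x, y) ∈ s
    · rw [indicator_of_mem hy, indicator_of_mem (show y ∈ Prod.mk x ⁻¹' s from hy)]
    · rw [indicator_of_notMem hy, indicator_of_notMem (show y ∉ Prod.mk x ⁻¹' s from hy)]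
  rw [e1, e2, lintegral_indicator hsl]
  exact oneD (φ := fun y => Φ (x, y)) (φ' := fun y => φ (x, y)) (hm x) (fun y hy => hd x y hy)
    (fun y hy => hpos x y hy) hsl

end Pool.Agent.W_d1cfb0_h29
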