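import Pool.Agent.W_d1cfb0_h29.Defs

/-!
# One dimensional change of variables; quotient of two maps with the same density

* `oneD`: change of variables on the line with one exceptional point. Proof:
  `lintegral_image_eq_lintegral_abs_deriv_mul` (with `g = 1`) for the measurable set `s \ {0}`,
  then remove the exceptional point: `φ '' s` and `φ '' (s \ {0})` differ by a subset of `{φ 0}`,
  which is null, and `∫⁻ x in s` and `∫⁻ x in s \ {0}` agree since `{0}` is null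
  (`setLIntegral_congr`, `MeasureTheory.diff_null_ae_eq_self`).
* `mp_of_density`: `volume (W₂ '' (W₁ ⁻¹' s)) = ∫⁻ z in W₁ ⁻¹' s, g z = volume (W₁ '' (W₁ ⁻¹' s))
  = volume s`, and `(W₂.symm.trans W₁) ⁻¹' s = W₂ '' (W₁ ⁻¹' s)`.
-/

namespace Pool.Agent.W_d1cfb0_h29

open MeasureTheory Set

theorem oneD {φ φ' : ℝ → ℝ} (hφ : StrictMono φ) (hd : ∀ x, x ≠ 0 → HasDerivAt φ (φ' x) x)
    (hpos : ∀ x, x ≠ 0 → 0 < φ' x) {s : Set ℝ} (hs : MeasurableSet s) :
    volume (φ '' s) = ∫⁻ x in s, ENNReal.ofReal (φ' x) := by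
  have hm : MeasurableSet (s \ {(0 : ℝ)}) := hs.diff (measurableSet_singleton 0)
  have h1 := lintegral_image_eq_lintegral_abs_deriv_mul (f := φ) (f' := φ') hm
    (fun x hx => (hd x hx.2).hasDerivWithinAt) (hφ.injective.injOn) (fun _ => 1)
  have h2 : ∫⁻ x in s \ {(0 : ℝ)}, ENNReal.ofReal |φ' x| * 1 =
      ∫⁻ x in s \ {(0 : ℝ)}, ENNReal.ofReal (φ' x) := by
    refine setLIntegral_congr_fun hm fun x hx => ?_
    simp only [mul_one]
    rw [abs_of_pos (hpos x hx.2)]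
  have h3 : ∫⁻ x in s \ {(0 : ℝ)}, ENNReal.ofReal (φ' x) = ∫⁻ x in s, ENNReal.ofReal (φ' x) :=
    setLIntegral_congr (sdiff_null_ae_eq_self (measure_singleton 0))
  have h4 : volume (φ '' (s \ {(0 : ℝ)})) = volume (φ '' s) := by
    refine le_antisymm (measure_mono (image_mono sdiff_subset)) ?_
    have h5 : φ '' s ⊆ φ '' (s \ {(0 : ℝ)}) ∪ {φ 0} := by
      rintro _ ⟨x, hx, rfl⟩
      by_cases h0 : x = 0
      · right
        rw [h0]
        rfl
      · left
        exact ⟨x, ⟨hx, h0⟩, rfl⟩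
    refine (measure_mono h5).trans ((measure_union_le _ _).trans ?_)
    rw [measure_singleton, add_zero]
  rw [← h4, ← h3, ← h2, ← h1]
  simp

theorem mp_of_density {W₁ W₂ : (ℝ × ℝ) ≃ₜ (ℝ × ℝ)} {g : ℝ × ℝ → ENNReal}
    (h₁ : ∀ s, MeasurableSet s → volume (W₁ '' s) = ∫⁻ z in s, g z)
    (h₂ : ∀ s, MeasurableSet s → volume (W₂ '' s) = ∫⁻ z in s, g z) :
    MeasurePreserving (W₂.symm.trans W₁) (volume : Measure (ℝ × ℝ)) volume := by
  refine ⟨(W₂.symm.trans W₁).continuous.measurable, ?_⟩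
  ext s hs
  rw [Measure.map_apply (W₂.symm.trans W₁).continuous.measurable hs]
  have hm : MeasurableSet (W₁ ⁻¹' s) := W₁.continuous.measurable hs
  have h3 : (W₂.symm.trans W₁) ⁻¹' s = W₂ '' (W₁ ⁻¹' s) := by
    ext z
    constructor
    · intro hz
      exact ⟨W₂.symm z, hz, W₂.apply_symm_apply z⟩
    · rintro ⟨w, hw, rfl⟩
      change W₁ (W₂.symm (W₂ w)) ∈ s
      rw [W₂.symm_apply_apply]
      exact hw
  have h4 : W₁ '' (W₁ ⁻¹' s) = s := image_preimage_eq s W₁.surjective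
  rw [h3, h₂ _ hm, ← h₁ _ hm, h4]

end Pool.Agent.W_d1cfb0_h29
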