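import Mathlib

/-!
# Shears of the plane, and the chart `chi` of the square

`chi` maps the left side, the bottom and the right side of the unit square at unit speed onto the
segment `[-1, 2] × {0}`, and the square onto the triangle with the vertices `(-1, 0)`, `(2, 0)`,
`(1, 2/3)`. It is a composition of shears, so it preserves area.

* `mp_shX`, `mp_shY`: `MeasurePreserving.skew_product` (with the identity on the base and the
  translation `x ↦ x + g y`, `measurePreserving_add_right`) and `Measure.volume_eq_prod`; for `shX`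
  use in addition `Prod.swap` (`Measure.measurePreserving_swap`).
* `chi_apply`: `y + min (x - y) 0 = min x y`.
* `chi_symm_lip`: each of the four inverse shears `(x, y) ↦ (x - g y, y)` with `g` `L`-Lipschitz is
  `(1 + L)`-Lipschitz for the maximum distance, `L = 1, 1, 2, 1`, so the composition is
  `2 * 2 * 3 * 2 = 24`-Lipschitz. (Prove a lemma `dist (shX g hg).symm z (shX g hg).symm w ≤ (1 + L)
  dist z w` from `|g s - g t| ≤ L |s - t|`, the same for `shY`.)
-/

namespace Pool.Agent.W_d1cfb0_h29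

open MeasureTheory Set

/-- Horizontal shear. -/
def shX (g : ℝ → ℝ) (hg : Continuous g) : (ℝ × ℝ) ≃ₜ (ℝ × ℝ) where
  toFun z := (z.1 + g z.2, z.2)
  invFun z := (z.1 - g z.2, z.2)
  left_inv z := by simp
  right_inv z := by simp
  continuous_toFun := by fun_prop
  continuous_invFun := by fun_prop

/-- Vertical shear. -/
def shY (g : ℝ → ℝ) (hg : Continuous g) : (ℝ × ℝ) ≃ₜ (ℝ × ℝ) where
  toFun z := (z.1, z.2 + g z.1)
  invFun z := (z.1, z.2 - g z.1)
  left_inv z := by simp
  right_inv z := by simp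
  continuous_toFun := by fun_prop
  continuous_invFun := by fun_prop

/-- The chart of the square. -/
noncomputable def chi : (ℝ × ℝ) ≃ₜ (ℝ × ℝ) :=
  ((shX (fun y => -y) (by fun_prop)).trans (shY (fun x => min x 0) (by fun_prop))).trans
    ((shX (fun y => 2 * y) (by fun_prop)).trans (shY (fun x => min (1 - x) 0) (by fun_prop)))

theorem shear_mpY (g : ℝ → ℝ) (hg : Continuous g) :
    MeasurePreserving (shY g hg) (volume : Measure (ℝ × ℝ)) volume := by
  rw [Measure.volume_eq_prod]
  have h1 : MeasurePreserving (fun p : ℝ × ℝ => (id p.1, (fun a c => c + g a) p.1 p.2))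
      ((volume : Measure ℝ).prod volume) ((volume : Measure ℝ).prod volume) := by
    refine MeasurePreserving.skew_product (μc := (volume : Measure ℝ))
      (μd := (volume : Measure ℝ)) (g := fun a c => c + g a)
      (MeasurePreserving.id (volume : Measure ℝ)) ?_ ?_
    · have : Continuous (Function.uncurry fun a c : ℝ => c + g a) := by
        unfold Function.uncurry
        fun_prop
      exact this.measurable
    · exact Filter.Eventually.of_forall fun a => (measurePreserving_add_right volume (g a)).map_eq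
  exact h1

theorem mp_shX (g : ℝ → ℝ) (hg : Continuous g) :
    MeasurePreserving (shX g hg) (volume : Measure (ℝ × ℝ)) volume := by
  have h1 := shear_mpY g hg
  have h2 : MeasurePreserving (Prod.swap : ℝ × ℝ → ℝ × ℝ) (volume : Measure (ℝ × ℝ)) volume := by
    rw [Measure.volume_eq_prod]
    exact Measure.measurePreserving_swap
  exact h2.comp (h1.comp h2)

theorem mp_shY (g : ℝ → ℝ) (hg : Continuous g) :
    MeasurePreserving (shY g hg) (volume : Measure (ℝ × ℝ)) volume := by
  exact shear_mpY g hg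

theorem mp_chi : MeasurePreserving chi (volume : Measure (ℝ × ℝ)) volume := by
  have h1 := mp_shX (fun y => -y) (by fun_prop)
  have h2 := mp_shY (fun x => min x 0) (by fun_prop)
  have h3 := mp_shX (fun y => 2 * y) (by fun_prop)
  have h4 := mp_shY (fun x => min (1 - x) 0) (by fun_prop)
  exact (h4.comp h3).comp (h2.comp h1)

theorem mp_chi_symm : MeasurePreserving chi.symm (volume : Measure (ℝ × ℝ)) volume := by
  exact MeasurePreserving.symm chi.toMeasurableEquiv mp_chi

theorem chi_apply (z : ℝ × ℝ) : chi z = (z.1 - z.2 + 2 * min z.1 z.2,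
    min z.1 z.2 + min (1 - (z.1 - z.2 + 2 * min z.1 z.2)) 0) := by
  have h0 : z.2 + min (z.1 + -z.2) 0 = min z.1 z.2 := by
    rcases le_total z.1 z.2 with h | h
    · rw [min_eq_left h, min_eq_left (by linarith)]
      ring
    · rw [min_eq_right h, min_eq_right (by linarith)]
      ring
  have h1 : chi z = (z.1 + -z.2 + 2 * (z.2 + min (z.1 + -z.2) 0),
      z.2 + min (z.1 + -z.2) 0 + min (1 - (z.1 + -z.2 + 2 * (z.2 + min (z.1 + -z.2) 0))) 0) := rfl
  rw [h1, h0, sub_eq_add_neg z.1 z.2]

/-- With `Y = v - min (1 - u) 0`, `X = u - 2 Y`: `y = Y - min X 0`, `x = X + y`. -/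
theorem chi_symm_apply (w : ℝ × ℝ) : chi.symm w =
    (w.1 - 2 * (w.2 - min (1 - w.1) 0) +
        ((w.2 - min (1 - w.1) 0) - min (w.1 - 2 * (w.2 - min (1 - w.1) 0)) 0),
      (w.2 - min (1 - w.1) 0) - min (w.1 - 2 * (w.2 - min (1 - w.1) 0)) 0) := by
  have h1 : chi.symm w = (w.1 - 2 * (w.2 - min (1 - w.1) 0) -
        -((w.2 - min (1 - w.1) 0) - min (w.1 - 2 * (w.2 - min (1 - w.1) 0)) 0),
      (w.2 - min (1 - w.1) 0) - min (w.1 - 2 * (w.2 - min (1 - w.1) 0)) 0) := rfl
  rw [h1, sub_neg_eq_add]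

theorem shear_lipX (g : ℝ → ℝ) (hg : Continuous g) (L : ℝ) (hL : 0 ≤ L)
    (h : ∀ s t, |g s - g t| ≤ L * |s - t|) (z w : ℝ × ℝ) :
    dist ((shX g hg).symm z) ((shX g hg).symm w) ≤ (1 + L) * dist z w := by
  have e1 : (shX g hg).symm z = (z.1 - g z.2, z.2) := rfl
  have e2 : (shX g hg).symm w = (w.1 - g w.2, w.2) := rfl
  rw [e1, e2, Prod.dist_eq, Prod.dist_eq]
  simp only [Real.dist_eq]
  have h1 := h z.2 w.2
  have h2 : |z.1 - w.1| ≤ max |z.1 - w.1| |z.2 - w.2| := le_max_left _ _
  have h3 : |z.2 - w.2| ≤ max |z.1 - w.1| |z.2 - w.2| := le_max_right _ _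
  have h4 : |z.1 - g z.2 - (w.1 - g w.2)| ≤ |z.1 - w.1| + |g z.2 - g w.2| := by
    have : z.1 - g z.2 - (w.1 - g w.2) = (z.1 - w.1) - (g z.2 - g w.2) := by ring
    rw [this]
    exact abs_sub _ _
  have h5 : 0 ≤ max |z.1 - w.1| |z.2 - w.2| := le_trans (abs_nonneg _) h2
  have h6 := mul_le_mul_of_nonneg_left h3 hL
  have h7 := mul_nonneg hL h5
  refine max_le ?_ ?_
  · linarith
  · linarith

theorem shear_lipY (g : ℝ → ℝ) (hg : Continuous g) (L : ℝ) (hL : 0 ≤ L)
    (h : ∀ s t, |g s - g t| ≤ L * |s - t|) (z w : ℝ × ℝ) :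
    dist ((shY g hg).symm z) ((shY g hg).symm w) ≤ (1 + L) * dist z w := by
  have e1 : (shY g hg).symm z = (z.1, z.2 - g z.1) := rfl
  have e2 : (shY g hg).symm w = (w.1, w.2 - g w.1) := rfl
  rw [e1, e2, Prod.dist_eq, Prod.dist_eq]
  simp only [Real.dist_eq]
  have h1 := h z.1 w.1
  have h2 : |z.1 - w.1| ≤ max |z.1 - w.1| |z.2 - w.2| := le_max_left _ _
  have h3 : |z.2 - w.2| ≤ max |z.1 - w.1| |z.2 - w.2| := le_max_right _ _
  have h4 : |z.2 - g z.1 - (w.2 - g w.1)| ≤ |z.2 - w.2| + |g z.1 - g w.1| := by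
    have : z.2 - g z.1 - (w.2 - g w.1) = (z.2 - w.2) - (g z.1 - g w.1) := by ring
    rw [this]
    exact abs_sub _ _
  have h5 : 0 ≤ max |z.1 - w.1| |z.2 - w.2| := le_trans (abs_nonneg _) h2
  have h6 := mul_le_mul_of_nonneg_left h2 hL
  have h7 := mul_nonneg hL h5
  refine max_le ?_ ?_
  · linarith
  · linarith

theorem chi_symm_lip (z w : ℝ × ℝ) : dist (chi.symm z) (chi.symm w) ≤ 24 * dist z w := by
  have k1 : ∀ s t : ℝ, |(-s) - (-t)| ≤ 1 * |s - t| := by
    intro s t
    have : (-s) - (-t) = -(s - t) := by ring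
    rw [this, abs_neg, one_mul]
  have k3 : ∀ s t : ℝ, |2 * s - 2 * t| ≤ 2 * |s - t| := by
    intro s t
    have : 2 * s - 2 * t = 2 * (s - t) := by ring
    rw [this, abs_mul, abs_two]
  have k2 : ∀ s t : ℝ, |min s 0 - min t 0| ≤ 1 * |s - t| := by
    intro s t
    have := abs_min_sub_min_le_max s 0 t 0
    rw [sub_self, abs_zero, max_eq_left (abs_nonneg _)] at this
    linarith
  have k4 : ∀ s t : ℝ, |min (1 - s) 0 - min (1 - t) 0| ≤ 1 * |s - t| := by
    intro s t
    have := k2 (1 - s) (1 - t)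
    have h : (1 - s) - (1 - t) = -(s - t) := by ring
    rw [h, abs_neg] at this
    exact this
  have l1 := fun a b => shear_lipX (fun y => -y) (by fun_prop) 1 (by norm_num) k1 a b
  have l2 := fun a b => shear_lipY (fun x => min x 0) (by fun_prop) 1 (by norm_num) k2 a b
  have l3 := fun a b => shear_lipX (fun y => 2 * y) (by fun_prop) 2 (by norm_num) k3 a b
  have l4 := fun a b => shear_lipY (fun x => min (1 - x) 0) (by fun_prop) 1 (by norm_num) k4 a b
  have e : ∀ z, chi.symm z = (shX (fun y => -y) (by fun_prop)).symm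
      ((shY (fun x => min x 0) (by fun_prop)).symm
        ((shX (fun y => 2 * y) (by fun_prop)).symm
          ((shY (fun x => min (1 - x) 0) (by fun_prop)).symm z))) := fun z => rfl
  rw [e z, e w]
  refine (l1 _ _).trans ?_
  have m2 := l2 ((shX (fun y => 2 * y) (by fun_prop)).symm
          ((shY (fun x => min (1 - x) 0) (by fun_prop)).symm z))
          ((shX (fun y => 2 * y) (by fun_prop)).symm
          ((shY (fun x => min (1 - x) 0) (by fun_prop)).symm w))
  have m3 := l3 ((shY (fun x => min (1 - x) 0) (by fun_prop)).symm z)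
    ((shY (fun x => min (1 - x) 0) (by fun_prop)).symm w)
  have m4 := l4 z w
  linarith

end Pool.Agent.W_d1cfb0_h29
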