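import Pool.Agent.W_d1cfb0_h45.Defs

/-!
# A small lift is a product of two small lifts supported in two arcs

Proof. Let `d x = max 0 (5/16 - |(x - 1/8) - round (x - 1/8)|)`: it is `1`-Lipschitz
(`|y - round y| = ‖(y : UnitAddCircle)‖`, `UnitAddCircle.norm_eq`, triangle inequality and
`‖(y : UnitAddCircle)‖ ≤ |y|`), `d (x + 1) = d x`, `d ≥ 0`. Put
`c x = max (x - d x / 2) (min (x + d x / 2) (b x))`. The functions `x - d x / 2`, `x + d x / 2`, `b` are
continuous and strictly increasing, so is `c`; `c (x + 1) = c x + 1`; `c x` is between `x` and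
`b x`, so `|c x - x| ≤ |b x - x| ≤ δ`; thus `c` is bijective (strictly increasing, continuous,
bounded displacement) and defines `b₁ : ℝ ≃o ℝ` (`StrictMono.orderIsoOfSurjective`). On
`[7/16, 13/16]` we have `d = 0` (`x - 1/8 ∈ [5/16, 11/16]` has distance `≥ 5/16` to the integers), so
`b₁ x = x`. Put `b₂ = b₁⁻¹ * b`. On `[-1/16, 5/16]` we have `d ≥ 1/8 ≥ 2 δ`
(`|x - 1/8| ≤ 3/16`), so `|b x - x| ≤ δ ≤ d x / 2` gives `c x = b x` and `b₂ x = x`. Finally
`|b₂ x - x| ≤ |b₁⁻¹ (b x) - b x| + |b x - x| ≤ 2 δ`.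
-/

namespace Pool.Agent.W_d1cfb0_h29

open Set Pool.Agent.W_d1cfb0_h45

/-- the distance to the nearest integer -/
noncomputable def split_N (y : ℝ) : ℝ := |y - round y|

/-- the cut-off function -/
noncomputable def split_d (x : ℝ) : ℝ := max 0 (5 / 16 - split_N (x - 1 / 8))

theorem split_N_le (y : ℝ) (n : ℤ) : split_N y ≤ |y - n| := round_le y n

theorem split_N_lip (y z : ℝ) : split_N y ≤ |y - z| + split_N z := by
  refine (split_N_le y (round z)).trans ?_
  unfold split_N
  have : y - round z = (y - z) + (z - round z) := by ring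
  rw [this]
  exact abs_add_le _ _

theorem split_N_add_one (y : ℝ) : split_N (y + 1) = split_N y := by
  unfold split_N
  rw [round_add_one]
  push_cast
  congr 1
  ring

theorem split_d_lip (x y : ℝ) : split_d x ≤ split_d y + |x - y| := by
  unfold split_d
  have h1 := split_N_lip (y - 1 / 8) (x - 1 / 8)
  have h2 : y - 1 / 8 - (x - 1 / 8) = -(x - y) := by ring
  rw [h2, abs_neg] at h1
  have h3 : 0 ≤ |x - y| := abs_nonneg _
  refine max_le ?_ ?_
  · have := le_max_left 0 (5 / 16 - split_N (y - 1 / 8))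
    linarith
  · have := le_max_right 0 (5 / 16 - split_N (y - 1 / 8))
    linarith

theorem split_d_nonneg (x : ℝ) : 0 ≤ split_d x := le_max_left _ _

theorem split_d_add_one (x : ℝ) : split_d (x + 1) = split_d x := by
  unfold split_d
  have : x + 1 - 1 / 8 = (x - 1 / 8) + 1 := by ring
  rw [this, split_N_add_one]

theorem split_d_cont : Continuous split_d := by
  refine LipschitzWith.continuous (K := 1) (LipschitzWith.of_dist_le_mul fun x y => ?_)
  rw [NNReal.coe_one, one_mul, Real.dist_eq, Real.dist_eq, abs_le]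
  have h1 := split_d_lip x y
  have h2 := split_d_lip y x
  rw [abs_sub_comm] at h2
  constructor <;> linarith

/-- the map `c` -/
noncomputable def split_c (b : ℝ ≃o ℝ) (x : ℝ) : ℝ :=
  max (x - split_d x / 2) (min (x + split_d x / 2) (b x))

theorem split_c_mono (b : ℝ ≃o ℝ) : StrictMono (split_c b) := by
  have h1 : StrictMono (fun x => x - split_d x / 2) := by
    intro x y hxy
    have h := split_d_lip y x
    rw [abs_of_pos (sub_pos.2 hxy)] at h
    show x - split_d x / 2 < y - split_d y / 2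
    linarith
  have h2 : StrictMono (fun x => x + split_d x / 2) := by
    intro x y hxy
    have h := split_d_lip x y
    rw [abs_sub_comm, abs_of_pos (sub_pos.2 hxy)] at h
    show x + split_d x / 2 < y + split_d y / 2
    linarith
  intro x y hxy
  have h3 := h1 hxy
  have h4 := h2 hxy
  have h5 := b.strictMono hxy
  simp only at h3 h4
  unfold split_c
  refine max_lt_max h3 ?_
  exact lt_min ((min_le_left _ _).trans_lt h4) ((min_le_right _ _).trans_lt h5)

theorem split_c_close (b : ℝ ≃o ℝ) (x : ℝ) : |split_c b x - x| ≤ |b x - x| := by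
  have hd := split_d_nonneg x
  unfold split_c
  rcases le_total x (b x) with h | h
  · have h1 : x ≤ min (x + split_d x / 2) (b x) := le_min (by linarith) h
    have h2 : min (x + split_d x / 2) (b x) ≤ b x := min_le_right _ _
    rw [max_eq_right (by linarith), abs_of_nonneg (by linarith), abs_of_nonneg (by linarith)]
    linarith
  · have h1 : min (x + split_d x / 2) (b x) = b x := min_eq_right (by linarith)
    rw [h1]
    have h2 : max (x - split_d x / 2) (b x) ≤ x := max_le (by linarith) h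
    have h3 : b x ≤ max (x - split_d x / 2) (b x) := le_max_right _ _
    rw [abs_of_nonpos (by linarith), abs_of_nonpos (by linarith)]
    linarith

theorem split_c_cont (b : ℝ ≃o ℝ) : Continuous (split_c b) := by
  have h1 := split_d_cont
  have h2 : Continuous b := b.continuous
  unfold split_c
  fun_prop

theorem split_c_surj (b : ℝ ≃o ℝ) {δ : ℝ} (hd : ∀ x, |b x - x| ≤ δ) :
    Function.Surjective (split_c b) := by
  have h : ∀ x, |split_c b x - x| ≤ δ := fun x => (split_c_close b x).trans (hd x)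
  refine (split_c_cont b).surjective ?_ ?_
  · refine Filter.tendsto_atTop_mono (fun x => ?_)
      (Filter.tendsto_atTop_add_const_right _ (-δ) Filter.tendsto_id)
    have := (abs_le.1 (h x)).1
    show x + -δ ≤ _
    linarith
  · refine Filter.tendsto_atBot_mono (fun x => ?_)
      (Filter.tendsto_atBot_add_const_right _ δ Filter.tendsto_id)
    have := (abs_le.1 (h x)).2
    show _ ≤ x + δ
    linarith

theorem split_c_add_one {b : ℝ ≃o ℝ} (hb : Lf b) (x : ℝ) :
    split_c b (x + 1) = split_c b x + 1 := by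
  unfold split_c
  rw [split_d_add_one, hb x, ← max_add_add_right, ← min_add_add_right]
  congr 1
  · ring
  · congr 1
    ring

theorem split_lift {b : ℝ ≃o ℝ} (hb : Lf b) {δ : ℝ} (h1 : δ ≤ 1 / 16)
    (hd : ∀ x, |b x - x| ≤ δ) :
    ∃ b₁ b₂ : ℝ ≃o ℝ, Lf b₁ ∧ Lf b₂ ∧ b = b₁ * b₂ ∧ (∀ x, |b₁ x - x| ≤ 2 * δ) ∧
      (∀ x, |b₂ x - x| ≤ 2 * δ) ∧ (∀ x ∈ Icc (7 / 16 : ℝ) (13 / 16), b₁ x = x) ∧
      ∀ x ∈ Icc (-1 / 16 : ℝ) (5 / 16), b₂ x = x := by
  have hδ : 0 ≤ δ := (abs_nonneg _).trans (hd 0)
  have hs := split_c_surj b hd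
  obtain ⟨b₁, hb₁⟩ : ∃ b₁ : ℝ ≃o ℝ, ∀ x, b₁ x = split_c b x :=
    ⟨StrictMono.orderIsoOfSurjective _ (split_c_mono b) hs, fun x => rfl⟩
  have hcl : ∀ x, |b₁ x - x| ≤ δ := fun x => by
    rw [hb₁]
    exact (split_c_close b x).trans (hd x)
  have hL : Lf b₁ := fun x => by
    rw [hb₁, hb₁]
    exact split_c_add_one hb x
  refine ⟨b₁, b₁⁻¹ * b, hL, hL.inv.mul hb, (mul_inv_cancel_left b₁ b).symm, fun x => ?_,
    fun x => ?_, fun x hx => ?_, fun x hx => ?_⟩
  · exact (hcl x).trans (by linarith)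
  · rw [mul_app]
    have h2 := hcl (b₁⁻¹ (b x))
    rw [app_inv, abs_sub_comm] at h2
    have h3 : b₁⁻¹ (b x) - x = (b₁⁻¹ (b x) - b x) + (b x - x) := by ring
    rw [h3]
    refine (abs_add_le _ _).trans ?_
    have := hd x
    linarith
  · have h2 : 5 / 16 ≤ split_N (x - 1 / 8) := by
      unfold split_N
      rcases le_or_gt (round (x - 1 / 8)) 0 with hn | hn
      · have h3 : ((round (x - 1 / 8) : ℤ) : ℝ) ≤ 0 := by exact_mod_cast hn
        have h4 := le_abs_self (x - 1 / 8 - ((round (x - 1 / 8) : ℤ) : ℝ))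
        linarith [hx.1]
      · have h3 : (1 : ℝ) ≤ ((round (x - 1 / 8) : ℤ) : ℝ) := by exact_mod_cast hn
        have h4 := neg_abs_le (x - 1 / 8 - ((round (x - 1 / 8) : ℤ) : ℝ))
        linarith [hx.2]
    have h3 : split_d x = 0 := by
      unfold split_d
      exact max_eq_left (by linarith)
    rw [hb₁]
    unfold split_c
    rw [h3, zero_div, sub_zero, add_zero]
    exact max_eq_left (min_le_left _ _)
  · have h2 : split_N (x - 1 / 8) ≤ 3 / 16 := by
      have h3 := split_N_le (x - 1 / 8) 0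
      rw [Int.cast_zero, sub_zero] at h3
      refine h3.trans (abs_le.2 ⟨by linarith [hx.1], by linarith [hx.2]⟩)
    have h3 : 1 / 8 ≤ split_d x := by
      unfold split_d
      exact (show (1 : ℝ) / 8 ≤ 5 / 16 - split_N (x - 1 / 8) by linarith).trans (le_max_right _ _)
    obtain ⟨h4, h5⟩ := abs_le.1 (hd x)
    have h6 : b₁ x = b x := by
      rw [hb₁]
      unfold split_c
      rw [min_eq_right (by linarith), max_eq_right (by linarith)]
    rw [mul_app, ← h6, inv_app]

end Pool.Agent.W_d1cfb0_h29
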