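import Pool.Agent.W_d1cfb0_h29.Dens

/-!
# The vertical map

* `continuous_V`: `B b x t = G b x √t - N t * k b x` is jointly continuous.
* `hasDerivAt_V`: for `t > 0`, near `t` the map is `t + G b x √t - N t * k b x - B b x 0`, and
  `B b x 0 = 0` (`G_zero`, `N_zero`); the derivative of `G b x √t` is
  `eta √t * (dl (x + √t) - dl (x - √t)) * (1 / (2 √t))` (`hasDerivAt_G`, `Real.hasDerivAt_sqrt`),
  the one of `N` is `zeta t`. For `t < 0` use that `V b (x, -t) = - V b (x, t)` (`V_neg`), and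
  `f b (x, -t) = f b (x, t)`.
* `strictMono_V`: continuous, positive derivative for `t ≠ 0`: strictly increasing on `Iic 0` and
  on `Ici 0` (`strictMonoOn_of_deriv_pos`), `StrictMonoOn.Iic_union_Ici`.
* `abs_V_sub_le`: for `t ≥ 0` it is `|B b x t| ≤ |G| + |k| ≤ del / 8 + del / 8`.
* `V_far`: for `t ≥ 3/128`: `√t ≥ 1/16` (as `3/128 ≥ 1/256`), so `G b x √t = k b x` (`G_eq_k`),
  `N t = 1`, so `B b x t = 0`.
* `V_off`: `G_off`, `k_off`.
-/

namespace Pool.Agent.W_d1cfb0_h29

open MeasureTheory Set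

variable {b : ℝ → ℝ} {p q del : ℝ}

theorem vmap_B_zero (b : ℝ → ℝ) (x : ℝ) : B b x 0 = 0 := by
  unfold B
  rw [Real.sqrt_zero, G_zero, N_zero]
  ring

theorem vmap_continuous_B (hb : Sml b p q del) : Continuous fun z : ℝ × ℝ => B b z.1 z.2 := by
  unfold B
  have h1 : Continuous fun z : ℝ × ℝ => G b z.1 √z.2 :=
    (continuous_G hb).comp (continuous_fst.prodMk (Real.continuous_sqrt.comp continuous_snd))
  exact h1.sub ((continuous_N.comp continuous_snd).mul ((continuous_k hb).comp continuous_fst))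

theorem continuous_V (hb : Sml b p q del) : Continuous (V b) := by
  unfold V
  have h := vmap_continuous_B hb
  have h1 : Continuous fun z : ℝ × ℝ => B b z.1 (max z.2 0) :=
    h.comp (continuous_fst.prodMk (continuous_snd.max continuous_const))
  have h2 : Continuous fun z : ℝ × ℝ => B b z.1 (max (-z.2) 0) :=
    h.comp (continuous_fst.prodMk (continuous_snd.neg.max continuous_const))
  exact (continuous_snd.add h1).sub h2

theorem V_neg (b : ℝ → ℝ) (x t : ℝ) : V b (x, -t) = -V b (x, t) := by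
  unfold V
  simp only [neg_neg]
  ring

theorem vmap_pos {b : ℝ → ℝ} {x t : ℝ} (ht : 0 ≤ t) : V b (x, t) = t + B b x t := by
  unfold V
  simp only
  rw [max_eq_left ht, max_eq_right (neg_nonpos.2 ht), vmap_B_zero, sub_zero]

theorem vmap_hasDerivAt_pos (hb : Sml b p q del) (x t : ℝ) (ht : 0 < t) :
    HasDerivAt (fun t => V b (x, t)) (f b (x, t)) t := by
  have hs : 0 < √t := Real.sqrt_pos.2 ht
  have h1 : HasDerivAt (fun t => G b x √t)
      (eta √t * (dl b (x + √t) - dl b (x - √t)) * (1 / (2 * √t))) t :=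
    (hasDerivAt_G hb x √t).comp t (Real.hasDerivAt_sqrt ht.ne')
  have h2 : HasDerivAt (fun t => t + (G b x √t - N t * k b x))
      (1 + (eta √t * (dl b (x + √t) - dl b (x - √t)) * (1 / (2 * √t)) - zeta t * k b x)) t :=
    (hasDerivAt_id t).add (h1.sub ((hasDerivAt_N t).mul_const _))
  have h3 : (fun t => V b (x, t)) =ᶠ[nhds t] fun t => t + (G b x √t - N t * k b x) := by
    filter_upwards [lt_mem_nhds ht] with s hs
    rw [vmap_pos hs.le]
    rfl
  have h4 := h2.congr_of_eventuallyEq h3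
  have h5 : f b (x, t) =
      1 + (eta √t * (dl b (x + √t) - dl b (x - √t)) * (1 / (2 * √t)) - zeta t * k b x) := by
    unfold f
    simp only
    rw [abs_of_pos ht]
    ring
  rw [h5]
  exact h4

theorem hasDerivAt_V (hb : Sml b p q del) (x t : ℝ) (ht : t ≠ 0) :
    HasDerivAt (fun t => V b (x, t)) (f b (x, t)) t := by
  rcases lt_or_gt_of_ne ht with h | h
  · have h1 := vmap_hasDerivAt_pos hb x (-t) (neg_pos.2 h)
    have h2 : HasDerivAt (fun s => -V b (x, -s)) (-(f b (x, -t) * -1)) t :=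
      (h1.comp t (hasDerivAt_neg t)).neg
    have h3 : (fun s => -V b (x, -s)) = fun s => V b (x, s) := by
      funext s
      rw [V_neg, neg_neg]
    rw [h3] at h2
    have h5 : f b (x, t) = -(f b (x, -t) * -1) := by
      unfold f
      simp only [abs_neg]
      ring
    rw [h5]
    exact h2
  · exact vmap_hasDerivAt_pos hb x t h

theorem V_zero (b : ℝ → ℝ) (x : ℝ) : V b (x, 0) = 0 := by
  rw [vmap_pos le_rfl, vmap_B_zero, add_zero]

theorem strictMono_V (hb : Sml b p q del) (x : ℝ) : StrictMono fun t => V b (x, t) := by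
  have hc : Continuous fun t => V b (x, t) :=
    (continuous_V hb).comp (continuous_const.prodMk continuous_id)
  have h1 : StrictMonoOn (fun t => V b (x, t)) (Iic 0) := by
    apply strictMonoOn_of_deriv_pos (convex_Iic 0) hc.continuousOn
    intro t ht
    rw [interior_Iic] at ht
    have h0 : t ≠ 0 := ne_of_lt ht
    rw [(hasDerivAt_V hb x t h0).deriv]
    exact f_pos hb x t h0
  have h2 : StrictMonoOn (fun t => V b (x, t)) (Ici 0) := by
    apply strictMonoOn_of_deriv_pos (convex_Ici 0) hc.continuousOn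
    intro t ht
    rw [interior_Ici] at ht
    have h0 : t ≠ 0 := ne_of_gt ht
    rw [(hasDerivAt_V hb x t h0).deriv]
    exact f_pos hb x t h0
  exact h1.Iic_union_Ici h2

theorem vmap_abs_B (hb : Sml b p q del) (x : ℝ) {t : ℝ} (ht : 0 ≤ t) : |B b x t| ≤ del := by
  unfold B
  have h1 := abs_G_le hb (Real.sqrt_nonneg t) x
  have h2 := abs_k_le hb x
  have h3 : |N t * k b x| ≤ del / 8 := by
    rw [abs_mul, abs_of_nonneg (N_nonneg ht)]
    calc N t * |k b x| ≤ 1 * (del / 8) :=
          mul_le_mul (N_le_one t) h2 (abs_nonneg _) zero_le_one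
      _ = del / 8 := one_mul _
  have h4 := abs_sub (G b x √t) (N t * k b x)
  have := hb.pos
  linarith

theorem abs_V_sub_le (hb : Sml b p q del) (z : ℝ × ℝ) : |V b z - z.2| ≤ del := by
  obtain ⟨x, t⟩ := z
  rcases le_total 0 t with h | h
  · rw [vmap_pos h]
    simp only [add_sub_cancel_left]
    exact vmap_abs_B hb x h
  · have h0 : 0 ≤ -t := neg_nonneg.2 h
    have h1 : V b (x, t) = -(-t + B b x (-t)) := by
      rw [← vmap_pos h0, V_neg, neg_neg]
    rw [h1]
    have h2 : -(-t + B b x (-t)) - (x, t).2 = -B b x (-t) := by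
      simp only
      ring
    rw [h2, abs_neg]
    exact vmap_abs_B hb x h0

theorem vmap_B_far (hb : Sml b p q del) (x : ℝ) {t : ℝ} (ht : 3 / 128 ≤ t) : B b x t = 0 := by
  unfold B
  have h1 : (1 / 16 : ℝ) ≤ √t := by
    apply Real.le_sqrt_of_sq_le
    norm_num
    linarith
  rw [G_eq_k hb h1, N_eq_one ht]
  ring

theorem V_far (hb : Sml b p q del) {z : ℝ × ℝ} (hz : 3 / 128 ≤ |z.2|) : V b z = z.2 := by
  obtain ⟨x, t⟩ := z
  simp only at hz ⊢
  rcases le_total 0 t with h | h
  · rw [abs_of_nonneg h] at hz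
    rw [vmap_pos h, vmap_B_far hb x hz, add_zero]
  · rw [abs_of_nonpos h] at hz
    have h1 : V b (x, t) = -(-t + B b x (-t)) := by
      rw [← vmap_pos (neg_nonneg.2 h), V_neg, neg_neg]
    rw [h1, vmap_B_far hb x hz]
    ring

theorem V_off (hb : Sml b p q del) {z : ℝ × ℝ} (hz : z.1 ∉ Icc (p - 1 / 16) (q + 1 / 16)) :
    V b z = z.2 := by
  unfold V B
  rw [G_off hb hz (Real.sqrt_nonneg _), G_off hb hz (Real.sqrt_nonneg _), k_off hb hz]
  ring

end Pool.Agent.W_d1cfb0_h29
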