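import Pool.Agent.W_d1cfb0_h29.FibreHomeo
import Pool.Agent.W_d1cfb0_h29.FibreVol
import Pool.Agent.W_d1cfb0_h29.FMap
import Pool.Agent.W_d1cfb0_h29.VMap

/-!
# The local extension

Proof. `exists_fibre` gives `W₁ z = (F b z, z.2)`, `exists_fibre'` gives `W₂ z = (z.1, V b z)`;
`volume_fibre`, `volume_fibre'` say that both have `volume (W '' s) = ∫⁻ z in s, ofReal (f b z)`,
so `T = W₂.symm.trans W₁` (`T z = W₁ (W₂.symm z)`) is measure preserving by `mp_of_density`.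
`W₂.symm (x, 0) = (x, 0)` as `V_zero`, so `T (x, 0) = (F b (x, 0), 0) = (b x, 0)`. If `z.1` is not
in the interval or `3/128 ≤ |z.2|` then `W₂ z = z` and `W₁ z = z`, so `T z = z`. Signs:
`W₂.symm z = (z.1, t)` with `V b (z.1, t) = z.2`, `V b (z.1, ·)` is strictly increasing and
vanishes at `0`, so `t` has the sign of `z.2`, and `(T z).2 = t`. Distances:
`|t - z.2| ≤ del`, `|F b (z.1, t) - z.1| ≤ 2 del`.
-/

namespace Pool.Agent.W_d1cfb0_h29

open MeasureTheory Set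

variable {b : ℝ → ℝ} {p q del : ℝ}

theorem exists_strip (hb : Sml b p q del) :
    ∃ T : (ℝ × ℝ) ≃ₜ (ℝ × ℝ), MeasurePreserving T (volume : Measure (ℝ × ℝ)) volume ∧
      (∀ x, T (x, 0) = (b x, 0)) ∧
      (∀ z : ℝ × ℝ, z.1 ∉ Icc (p - 1 / 16) (q + 1 / 16) → T z = z) ∧
      (∀ z : ℝ × ℝ, 3 / 128 ≤ |z.2| → T z = z) ∧
      (∀ z : ℝ × ℝ, 0 ≤ z.2 → 0 ≤ (T z).2) ∧
      (∀ z : ℝ × ℝ, z.2 ≤ 0 → (T z).2 ≤ 0) ∧
      (∀ z : ℝ × ℝ, dist (T z) z ≤ 2 * del) := by
  obtain ⟨W₁, hW₁⟩ := exists_fibre (continuous_F hb) (strictMono_F hb) (abs_F_sub_le hb)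
  obtain ⟨W₂, hW₂⟩ := exists_fibre' (continuous_V hb) (strictMono_V hb) (abs_V_sub_le hb)
  have hinv : ∀ z : ℝ × ℝ, (W₂.symm z).1 = z.1 ∧ V b (W₂.symm z) = z.2 := by
    intro z
    have h1 := hW₂ (W₂.symm z)
    rw [W₂.apply_symm_apply] at h1
    exact ⟨(congrArg Prod.fst h1).symm, (congrArg Prod.snd h1).symm⟩
  have hT : ∀ z, (W₂.symm.trans W₁) z = (F b (W₂.symm z), (W₂.symm z).2) := fun z => hW₁ _
  have hfix : ∀ z : ℝ × ℝ, V b z = z.2 → F b z = z.1 → (W₂.symm.trans W₁) z = z := by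
    intro z h1 h2
    have h3 : W₂ z = z := by
      rw [hW₂, h1]
    have h4 : W₂.symm z = z := by
      rw [Homeomorph.symm_apply_eq, h3]
    rw [hT, h4, h2]
  have hVz : ∀ z : ℝ × ℝ, V b (z.1, (W₂.symm z).2) = z.2 := by
    intro z
    obtain ⟨h1, h2⟩ := hinv z
    rw [← h1]
    exact h2
  refine ⟨W₂.symm.trans W₁, ?_, ?_, ?_, ?_, ?_, ?_, ?_⟩
  · refine mp_of_density (g := fun z => ENNReal.ofReal (f b z)) ?_ ?_
    · intro s hs
      exact volume_fibre hW₁ (strictMono_F hb) (fun x y hy => hasDerivAt_F hb x y hy)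
        (fun x y hy => f_pos hb x y hy) (measurable_f hb) hs
    · intro s hs
      exact volume_fibre' hW₂ (strictMono_V hb) (fun x y hy => hasDerivAt_V hb x y hy)
        (fun x y hy => f_pos hb x y hy) (measurable_f hb) hs
  · intro x
    have h3 : W₂ (x, 0) = (x, 0) := by
      rw [hW₂, V_zero]
    have h4 : W₂.symm (x, 0) = (x, 0) := by
      rw [Homeomorph.symm_apply_eq, h3]
    rw [hT, h4, F_zero]
  · intro z hz
    exact hfix z (V_off hb hz) (F_off hb hz)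
  · intro z hz
    exact hfix z (V_far hb hz) (F_far b hz)
  · intro z hz
    rw [hT]
    by_contra hcon
    rw [not_le] at hcon
    have h1 := strictMono_V hb z.1 hcon
    simp only at h1
    rw [hVz, V_zero] at h1
    linarith
  · intro z hz
    rw [hT]
    by_contra hcon
    rw [not_le] at hcon
    have h1 := strictMono_V hb z.1 hcon
    simp only at h1
    rw [hVz, V_zero] at h1
    linarith
  · intro z
    obtain ⟨h1, h2⟩ := hinv z
    rw [hT, Prod.dist_eq]
    refine max_le ?_ ?_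
    · have h3 := abs_F_sub_le hb (W₂.symm z)
      rw [h1] at h3
      exact h3
    · have h3 := abs_V_sub_le hb (W₂.symm z)
      rw [h2, abs_sub_comm] at h3
      have h4 := hb.pos
      rw [Real.dist_eq]
      linarith

end Pool.Agent.W_d1cfb0_h29
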