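import Pool.Agent.W_d1cfb0_h29.ChartLift
import Pool.Agent.W_d1cfb0_h29.Split
import Pool.Agent.W_d1cfb0_h45.Square

/-!
# From the plane `ℝ × ℝ` to the square in Euclidean space

* `to_sq`: let `e : E2 → ℝ × ℝ`, `e x = (x 0, x 1)`, with the inverse `(u, v) ↦ !₂[u, v]`: a
  homeomorphism (linear), measure preserving: composition of
  `EuclideanSpace.volume_preserving_symm_measurableEquiv_toLp` (or `PiLp.volume_preserving_ofLp`)
  with `MeasureTheory.volume_preserving_finTwoArrow`. `x ∈ Sq ↔ e x ∈ psq`, `e (bd t) = bp t`. Let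
  `g = e⁻¹ ∘ h ∘ e : E2 ≃ₜ E2`, a measure preserving homeomorphism with `g x ∈ Sq ↔ x ∈ Sq`; it
  restricts to `h' : Sq ≃ₜ Sq` (`Homeomorph.subtype` or by hand). For measurable `A ⊆ Sq`,
  `Subtype.val '' (h' '' (Subtype.val ⁻¹' A)) = g '' A`, whose volume is the one of `A`
  (`(hg.symm).measure_preimage` or `measure_preimage_equiv`). Distance: in `E2`,
  `dist x y ≤ |x 0 - y 0| + |x 1 - y 1| ≤ 2 dist (e x) (e y)` (`EuclideanSpace.dist_eq`,
  `Real.sqrt_le_left`...: `√(a² + b²) ≤ |a| + |b|`).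
* `small_ext'`: given `ε`, let `δ = min (1/200) (ε / 2000)`; `split_lift`; `chart_lift` for `b₁` and
  `chart_lift'` for `b₂` (with `2 δ < 1/64`), `pext_mul`: `PExt b (192 * 2 δ + 192 * 2 δ)`,
  `to_sq` gives `dist ≤ 2 * 768 δ ≤ ε`.
-/

namespace Pool.Agent.W_d1cfb0_h29

open MeasureTheory Set Pool.Agent.W_d1cfb0_h45

/-- The coordinates. -/
noncomputable def tosqE : E2 ≃ₜ ℝ × ℝ where
  toFun x := (x 0, x 1)
  invFun w := !₂[w.1, w.2]
  left_inv x := by
    ext i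
    fin_cases i <;> rfl
  right_inv w := rfl
  continuous_toFun := by fun_prop
  continuous_invFun := by
    refine (PiLp.continuous_toLp 2 _).comp ?_
    refine continuous_pi fun i => ?_
    fin_cases i
    · exact continuous_fst
    · exact continuous_snd

theorem tosqE_apply (x : E2) : tosqE x = (x 0, x 1) := rfl

theorem tosq_mp : MeasurePreserving tosqE (volume : Measure E2) (volume : Measure (ℝ × ℝ)) :=
  (volume_preserving_finTwoArrow ℝ).comp (PiLp.volume_preserving_ofLp (Fin 2))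

theorem tosq_mem (x : E2) : tosqE x ∈ psq ↔ x ∈ Sq := by
  constructor
  · rintro ⟨h0, h1⟩ i
    fin_cases i
    · exact h0
    · exact h1
  · intro h
    exact ⟨h 0, h 1⟩

theorem tosq_bd (t : ℝ) : tosqE (bd t : E2) = bp t := rfl

theorem tosq_dist (x y : E2) : dist x y ≤ 2 * dist (tosqE x) (tosqE y) := by
  rw [EuclideanSpace.dist_eq, Fin.sum_univ_two]
  have h0 : dist (x 0) (y 0) ≤ dist (tosqE x) (tosqE y) := le_max_left _ _
  have h1 : dist (x 1) (y 1) ≤ dist (tosqE x) (tosqE y) := le_max_right _ _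
  have hd : 0 ≤ dist (tosqE x) (tosqE y) := dist_nonneg
  have ha : 0 ≤ dist (x 0) (y 0) := dist_nonneg
  have hb : 0 ≤ dist (x 1) (y 1) := dist_nonneg
  refine Real.sqrt_le_iff.2 ⟨by positivity, ?_⟩
  nlinarith

theorem to_sq {b : ℝ ≃o ℝ} {ε : ℝ} (hb : PExt b ε) :
    ∃ h : Sq ≃ₜ Sq, PV h ∧ (∀ t, h (bd t) = bd (b t)) ∧ ∀ p, dist (h p) p ≤ 2 * ε := by
  obtain ⟨h, hmp, hsq, hbp, hd⟩ := hb
  let g : E2 ≃ₜ E2 := tosqE.trans (h.trans tosqE.symm)
  have hg : ∀ x, tosqE (g x) = h (tosqE x) := fun x => tosqE.apply_symm_apply _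
  have hgmp : MeasurePreserving g (volume : Measure E2) volume := by
    have h1 : MeasurePreserving tosqE.symm (volume : Measure (ℝ × ℝ)) (volume : Measure E2) :=
      MeasurePreserving.symm tosqE.toMeasurableEquiv tosq_mp
    exact h1.comp (hmp.comp tosq_mp)
  have hgs : ∀ x, x ∈ Sq ↔ g x ∈ Sq := fun x => by
    rw [← tosq_mem x, ← tosq_mem (g x), hg, hsq]
  let h' : Sq ≃ₜ Sq := g.subtype hgs
  have hh' : ∀ p : Sq, ((h' p : Sq) : E2) = g p := fun p => rfl
  refine ⟨h', ?_, ?_, ?_⟩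
  · intro A hA hAS
    have h1 : Subtype.val '' (h' '' (Subtype.val ⁻¹' A)) = g.symm ⁻¹' A := by
      ext x
      constructor
      · rintro ⟨_, ⟨p, hp, rfl⟩, rfl⟩
        rw [mem_preimage, hh', g.symm_apply_apply]
        exact hp
      · intro hx
        have hx' : g.symm x ∈ A := hx
        refine ⟨h' ⟨g.symm x, hAS hx'⟩, ⟨⟨g.symm x, hAS hx'⟩, hx', rfl⟩, ?_⟩
        rw [hh']
        exact g.apply_symm_apply x
    rw [h1]
    exact (MeasurePreserving.symm g.toMeasurableEquiv hgmp).measure_preimage hA.nullMeasurableSet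
  · intro t
    apply Subtype.ext
    rw [hh']
    apply tosqE.injective
    rw [hg, tosq_bd, tosq_bd, hbp]
  · intro p
    rw [Subtype.dist_eq, hh']
    refine (tosq_dist _ _).trans ?_
    rw [hg]
    have := hd (tosqE p)
    linarith

theorem small_ext' (ε : ℝ) (hε : 0 < ε) : ∃ δ : ℝ, 0 < δ ∧ ∀ b : ℝ ≃o ℝ, Lf b →
    (∀ x, |b x - x| ≤ δ) →
    ∃ h : Sq ≃ₜ Sq, PV h ∧ (∀ t, h (bd t) = bd (b t)) ∧ ∀ p, dist (h p) p ≤ ε := by
  refine ⟨min (1 / 200) (ε / 2000), by positivity, fun b hb hd => ?_⟩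
  set δ := min (1 / 200) (ε / 2000) with hδ
  have h0 : 0 < δ := by positivity
  have h1 : δ ≤ 1 / 200 := min_le_left _ _
  have h2 : δ ≤ ε / 2000 := min_le_right _ _
  obtain ⟨b₁, b₂, hb₁, hb₂, rfl, hd₁, hd₂, hs₁, hs₂⟩ := split_lift hb (by linarith) hd
  have e₁ := chart_lift hb₁ (δ := 2 * δ) (by linarith) (by linarith) hd₁ hs₁
  have e₂ := chart_lift' hb₂ (δ := 2 * δ) (by linarith) (by linarith) hd₂ hs₂
  obtain ⟨h, hp, ht, hdist⟩ := to_sq (pext_mul e₁ e₂)
  refine ⟨h, hp, ht, fun p => (hdist p).trans ?_⟩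
  linarith

end Pool.Agent.W_d1cfb0_h29
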